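import Mathlib

/-!
# Lemma W: change of basis in the space of polynomials of bidegree less than m
-/

set_option autoImplicit false

open Finset Polynomial

namespace Pool.Agent.Helper55.LW

variable {K : Type*} [Field K]

/-- a family of bivariate polynomials `φ(X) M(Y)` with `φ`, `M` monic -/
lemma det_basis (m : ℕ) (φ : Fin m × Fin m → K[X]) (M : Fin m × Fin m → K[X][X])
    (hφ : ∀ ce, (φ ce).Monic) (hφd : ∀ ce, (φ ce).natDegree = ce.1)
    (hM : ∀ ce, (M ce).Monic) (hMd : ∀ ce, (M ce).natDegree = ce.2)
    (hdeg : ∀ ce q, (φ ce * (M ce).coeff q).natDegree < m)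
    (x y : Fin m × Fin m → K) :
    (Matrix.of fun j (ce : Fin m × Fin m) => (φ ce).eval (x j) * (M ce).evalEval (x j) (y j)).det =
      (Matrix.of fun j (pq : Fin m × Fin m) => x j ^ (pq.1 : ℕ) * y j ^ (pq.2 : ℕ)).det := by
  classical
  set T : Matrix (Fin m × Fin m) (Fin m × Fin m) K :=
    Matrix.of fun pq ce => (φ ce * (M ce).coeff pq.2).coeff pq.1 with hT
  have hdet : T.det = 1 := by
    have hbt : T.BlockTriangular (fun pq => toLex (pq.2, pq.1)) := by
      intro pq ce h
      rw [Prod.Lex.toLex_lt_toLex] at h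
      simp only at h
      rw [hT, Matrix.of_apply]
      rcases h with h | ⟨h1, h2⟩
      · rw [Polynomial.coeff_eq_zero_of_natDegree_lt (p := M ce)]
        · simp
        · rw [hMd]; exact h
      · have e1 : (M ce).coeff pq.2 = 1 := by
          have := hM ce
          rw [Polynomial.Monic, Polynomial.leadingCoeff, hMd ce, h1] at this
          exact this
        rw [e1, mul_one]
        apply Polynomial.coeff_eq_zero_of_natDegree_lt
        rw [hφd]; exact h2
    rw [hbt.det_fintype]
    apply Finset.prod_eq_one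
    intro k _
    have : T.toSquareBlock (fun pq => toLex (pq.2, pq.1)) k = 1 := by
      ext pq ce
      obtain ⟨⟨p, q⟩, hq⟩ := pq
      obtain ⟨⟨c, e⟩, he⟩ := ce
      simp only at hq he
      have hqe : toLex (q, p) = toLex (e, c) := hq.trans he.symm
      have h2 : (q, p) = (e, c) := toLex.injective hqe
      rw [Prod.mk.injEq] at h2
      obtain ⟨rfl, rfl⟩ := h2
      have e0 : T.toSquareBlock (fun pq => toLex (pq.2, pq.1)) k ⟨(p, q), hq⟩ ⟨(p, q), he⟩ =
          (φ (p, q) * (M (p, q)).coeff q).coeff p := rfl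
      rw [e0]
      have e1 : (M (p, q)).coeff q = 1 := by
        have := hM (p, q)
        rw [Polynomial.Monic, Polynomial.leadingCoeff, hMd (p, q)] at this
        exact this
      have e2 : (φ (p, q)).coeff p = 1 := by
        have := hφ (p, q)
        rw [Polynomial.Monic, Polynomial.leadingCoeff, hφd (p, q)] at this
        exact this
      rw [e1, mul_one, e2]
      rw [Matrix.one_apply_eq]
    rw [this, Matrix.det_one]
  have hmul : (Matrix.of fun j (ce : Fin m × Fin m) =>
      (φ ce).eval (x j) * (M ce).evalEval (x j) (y j)) =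
      (Matrix.of fun j (pq : Fin m × Fin m) => x j ^ (pq.1 : ℕ) * y j ^ (pq.2 : ℕ)) * T := by
    ext j ce
    rw [Matrix.of_apply, Matrix.mul_apply, Fintype.sum_prod_type_right]
    have h1 : ∀ q : Fin m, (∑ p : Fin m, (Matrix.of fun j (pq : Fin m × Fin m) =>
        x j ^ (pq.1 : ℕ) * y j ^ (pq.2 : ℕ)) j (p, q) * T (p, q) ce) =
        (φ ce * (M ce).coeff q).eval (x j) * y j ^ (q : ℕ) := by
      intro q
      rw [Polynomial.eval_eq_sum_range' (hdeg ce q), Finset.sum_mul,
        ← Fin.sum_univ_eq_sum_range (fun i => (φ ce * (M ce).coeff q).coeff i * x j ^ i * y j ^ (q : ℕ)) m]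
      apply Finset.sum_congr rfl
      intro p _
      simp only [hT, Matrix.of_apply]
      ring
    rw [Finset.sum_congr rfl (fun q _ => h1 q)]
    have hMm : (M ce).natDegree < m := by rw [hMd]; exact ce.2.2
    rw [Polynomial.evalEval, Polynomial.eval_eq_sum_range' hMm, Polynomial.eval_finsetSum,
      ← Fin.sum_univ_eq_sum_range (fun i => eval (x j) ((M ce).coeff i * C (y j) ^ i)) m,
      Finset.mul_sum]
    apply Finset.sum_congr rfl
    intro q _
    simp only [eval_mul, eval_pow, eval_C]
    ring
  rw [hmul, Matrix.det_mul, hdet, mul_one]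

end Pool.Agent.Helper55.LW
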