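import Mathlib

/-!
# Lemma W: averaging over permutations, Leja sequences, change of basis
-/

set_option autoImplicit false

open Finset

namespace Pool.Agent.Helper55.LW

/-! ### averaging -/

/-- 2-transitivity of the symmetric group -/
lemma exists_perm {ι : Type*} [DecidableEq ι] {i j i' j' : ι} (h : i ≠ j) (h' : i' ≠ j') :
    ∃ τ : Equiv.Perm ι, τ i = i' ∧ τ j = j' := by
  refine ⟨Equiv.swap (Equiv.swap i i' j) j' * Equiv.swap i i', ?_, ?_⟩
  · rw [Equiv.Perm.mul_apply, Equiv.swap_apply_left]
    apply Equiv.swap_apply_of_ne_of_ne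
    · intro hc
      apply h
      have h2 : Equiv.swap i i' i = Equiv.swap i i' j := by
        rw [Equiv.swap_apply_left]; exact hc
      exact (Equiv.swap i i').injective h2
    · exact h'
  · rw [Equiv.Perm.mul_apply, Equiv.swap_apply_left]

/-- the averaging lemma -/
lemma exists_perm_le {ι : Type*} [Fintype ι] [DecidableEq ι] (wt G : ι → ι → ℝ)
    (hwt : ∀ i, wt i i = 0) (hcard : 2 ≤ Fintype.card ι) :
    ∃ σ : Equiv.Perm ι, (∑ i, ∑ j, wt i j * G (σ i) (σ j)) *
      ((Fintype.card ι : ℝ) * ((Fintype.card ι : ℝ) - 1)) ≤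
      (∑ i, ∑ j, wt i j) * (∑ i, ∑ j, if i = j then 0 else G i j) := by
  classical
  set m : ℝ := (Fintype.card ι : ℝ) with hm
  have hm2 : (2 : ℝ) ≤ m := by rw [hm]; exact_mod_cast hcard
  obtain ⟨i₀, j₀, h₀⟩ : ∃ i j : ι, i ≠ j := by
    have : 1 < Fintype.card ι := by omega
    exact Fintype.one_lt_card_iff.mp this
  set T : ℝ := ∑ i, ∑ j, if i = j then 0 else G i j with hT
  set S : ℝ := ∑ σ : Equiv.Perm ι, G (σ i₀) (σ j₀) with hS
  have hconst : ∀ i j, i ≠ j → ∑ σ : Equiv.Perm ι, G (σ i) (σ j) = S := by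
    intro i j hij
    obtain ⟨τ, h1, h2⟩ := exists_perm h₀ hij
    rw [hS, ← Equiv.sum_comp (Equiv.mulRight τ) (fun σ : Equiv.Perm ι => G (σ i₀) (σ j₀))]
    apply Finset.sum_congr rfl
    intro σ _
    simp only [Equiv.coe_mulRight, Equiv.Perm.mul_apply, h1, h2]
  -- total
  have hinv : ∀ σ : Equiv.Perm ι, (∑ i, ∑ j, if i = j then 0 else G (σ i) (σ j)) = T := by
    intro σ
    rw [hT, ← Equiv.sum_comp σ (fun i => ∑ j, if i = j then 0 else G i j)]
    apply Finset.sum_congr rfl
    intro i _
    rw [← Equiv.sum_comp σ (fun j => if σ i = j then 0 else G (σ i) j)]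
    apply Finset.sum_congr rfl
    intro j _
    by_cases h : i = j
    · simp [h]
    · rw [if_neg h, if_neg (fun hc => h (σ.injective hc))]
  have hcount : ∀ c : ℝ, (∑ i : ι, ∑ j : ι, if i = j then 0 else c) = m * (m - 1) * c := by
    intro c
    have : ∀ i : ι, (∑ j : ι, if i = j then 0 else c) = (m - 1) * c := by
      intro i
      have h1 : (∑ j : ι, if i = j then 0 else c) = ∑ j : ι, (c - if i = j then c else 0) := by
        apply Finset.sum_congr rfl
        intro j _
        by_cases h : i = j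
        · simp [h]
        · simp [h]
      rw [h1, Finset.sum_sub_distrib, Finset.sum_const, Finset.card_univ, nsmul_eq_mul,
        Finset.sum_ite_eq, if_pos (Finset.mem_univ i), ← hm]
      ring
    rw [Finset.sum_congr rfl (fun i _ => this i), Finset.sum_const, Finset.card_univ,
      nsmul_eq_mul, ← hm]
    ring
  have h1 : m * (m - 1) * S = ((Fintype.card (Equiv.Perm ι) : ℝ)) * T := by
    have e1 : (∑ σ : Equiv.Perm ι, ∑ i, ∑ j, if i = j then 0 else G (σ i) (σ j)) =
        (Fintype.card (Equiv.Perm ι) : ℝ) * T := by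
      rw [Finset.sum_congr rfl (fun σ _ => hinv σ), Finset.sum_const, Finset.card_univ,
        nsmul_eq_mul]
    rw [← e1, Finset.sum_comm, ← hcount S]
    apply Finset.sum_congr rfl
    intro i _
    rw [Finset.sum_comm]
    apply Finset.sum_congr rfl
    intro j _
    by_cases h : i = j
    · simp [h]
    · simp only [if_neg h]
      exact (hconst i j h).symm
  have h2 : (∑ σ : Equiv.Perm ι, ∑ i, ∑ j, wt i j * G (σ i) (σ j)) = (∑ i, ∑ j, wt i j) * S := by
    rw [Finset.sum_comm, Finset.sum_mul]
    apply Finset.sum_congr rfl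
    intro i _
    rw [Finset.sum_comm, Finset.sum_mul]
    apply Finset.sum_congr rfl
    intro j _
    by_cases h : i = j
    · subst h
      simp [hwt]
    · rw [← Finset.mul_sum, hconst i j h]
  by_contra hcon
  push Not at hcon
  have h3 : ∑ σ : Equiv.Perm ι, ((∑ i, ∑ j, wt i j) * T) <
      ∑ σ : Equiv.Perm ι, (∑ i, ∑ j, wt i j * G (σ i) (σ j)) * (m * (m - 1)) :=
    Finset.sum_lt_sum_of_nonempty ⟨1, Finset.mem_univ _⟩ (fun σ _ => hcon σ)
  rw [← Finset.sum_mul Finset.univ (fun σ : Equiv.Perm ι => ∑ i, ∑ j, wt i j * G (σ i) (σ j)), h2,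
    Finset.sum_const, Finset.card_univ, nsmul_eq_mul] at h3
  have h4 : (∑ i, ∑ j, wt i j) * S * (m * (m - 1)) =
      (Fintype.card (Equiv.Perm ι) : ℝ) * ((∑ i, ∑ j, wt i j) * T) := by
    calc (∑ i, ∑ j, wt i j) * S * (m * (m - 1)) = (∑ i, ∑ j, wt i j) * (m * (m - 1) * S) := by ring
      _ = _ := by rw [h1]; ring
  rw [h4] at h3
  exact lt_irrefl _ h3

/-! ### Leja sequences -/

lemma exists_leja {K : Type*} [DecidableEq K] [Nonempty K] (w : K → K → ℝ) (X : Finset K) (U : K → ℝ) (r : ℕ)
    (hr : r ≤ X.card) :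
    ∃ z : ℕ → K, (∀ c < r, z c ∈ X) ∧ (∀ c < r, ∀ l < c, z c ≠ z l) ∧
      ∀ c < r, ∀ x ∈ X, (∀ l < c, x ≠ z l) →
        ∑ l ∈ range c, w (z c) (z l) + U (z c) ≤ ∑ l ∈ range c, w x (z l) + U x := by
  induction r with
  | zero =>
    exact ⟨fun _ => Classical.arbitrary K, fun c hc => by omega, fun c hc => by omega,
      fun c hc => by omega⟩
  | succ r ih =>
    obtain ⟨z, h1, h2, h3⟩ := ih (by omega)
    have hne : (X \ (range r).image z).Nonempty := by
      rw [← Finset.card_pos]
      have e1 : ((range r).image z).card ≤ r := Finset.card_image_le.trans (by simp)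
      have e2 := Finset.le_card_sdiff ((range r).image z) X
      omega
    obtain ⟨a, ha, hmin⟩ := Finset.exists_min_image (X \ (range r).image z)
      (fun x => ∑ l ∈ range r, w x (z l) + U x) hne
    rw [mem_sdiff, mem_image] at ha
    have haz : ∀ l < r, a ≠ z l := by
      intro l hl hc
      exact ha.2 ⟨l, mem_range.mpr hl, hc.symm⟩
    have hsame : ∀ c < r, Function.update z r a c = z c := by
      intro c hc
      exact Function.update_of_ne (by omega) _ _
    have hr' : Function.update z r a r = a := Function.update_self _ _ _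
    refine ⟨Function.update z r a, ?_, ?_, ?_⟩
    · intro c hc
      rcases Nat.lt_succ_iff_lt_or_eq.mp hc with h | h
      · rw [hsame c h]; exact h1 c h
      · rw [h, hr']; exact ha.1
    · intro c hc l hl
      rcases Nat.lt_succ_iff_lt_or_eq.mp hc with h | h
      · rw [hsame c h, hsame l (by omega)]; exact h2 c h l hl
      · subst h
        rw [hr', hsame l hl]; exact haz l hl
    · intro c hc x hx hxl
      have hsum : ∀ y : K, ∀ c' ≤ r, ∑ l ∈ range c', w y (Function.update z r a l) =
          ∑ l ∈ range c', w y (z l) := by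
        intro y c' hc'
        apply Finset.sum_congr rfl
        intro l hl
        rw [mem_range] at hl
        rw [hsame l (by omega)]
      rw [hsum _ c (by omega), hsum _ c (by omega)]
      rcases Nat.lt_succ_iff_lt_or_eq.mp hc with h | h
      · rw [hsame c h]
        refine h3 c h x hx ?_
        intro l hl
        rw [← hsame l (by omega)]
        exact hxl l hl
      · subst h
        rw [hr']
        apply hmin
        rw [mem_sdiff, mem_image]
        refine ⟨hx, ?_⟩
        rintro ⟨l, hl, hlx⟩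
        rw [mem_range] at hl
        apply hxl l hl
        rw [hsame l hl, hlx]

end Pool.Agent.Helper55.LW
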