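import Pool.Agent.Helper33.DVBasic
import Pool.Agent.Helper55.LW.Comb
import Pool.Agent.Helper55.LW.Basis

/-!
# Lemma W: cubic gain for the near-diagonal determinant at every wild place

`v` is a valuation of `K`, `s` an endomorphism of `K` with `v (s z - z) ≥ v z + i₁` for all `z ≠ 0`.
For points `x_j`, `j ∈ Fin m × Fin m`, `m = 2 R`, of a finite set `X`, the determinant
`det (x_j ^ a * (s x_j) ^ b)` has a gain of `R ^ 3 * i₁` over the trivial bound `2 m E_min (m)`.
-/

set_option autoImplicit false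

open Finset Polynomial

namespace Pool.Agent.Helper55.LW

open Pool.Agent.Helper33

variable {K : Type*} [Field K]

/-- pair energy -/
noncomputable def g (v : DV K) (H : K → ℝ) (q : ℝ) (a b : K) : ℝ :=
  (v.o (a - b) : ℝ) - H a - H b + q

/-- energy of the first `m` terms of a sequence -/
noncomputable def En (v : DV K) (H : K → ℝ) (q : ℝ) (t : ℕ → K) (m : ℕ) : ℝ :=
  ∑ i ∈ range m, ∑ j ∈ range i, g v H q (t i) (t j)

lemma g_comm (v : DV K) (H : K → ℝ) (q : ℝ) (a b : K) : g v H q a b = g v H q b a := by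
  unfold g
  rw [v.o_sub_comm a b]
  ring

/-! ### sums -/

lemma sum_pair (f : ℕ → ℝ) (m : ℕ) :
    ∑ i ∈ range m, ∑ j ∈ range i, (f i + f j) = ((m : ℝ) - 1) * ∑ i ∈ range m, f i := by
  induction m with
  | zero => simp
  | succ m ih =>
    rw [Finset.sum_range_succ, ih, Finset.sum_add_distrib, Finset.sum_const, card_range,
      nsmul_eq_mul, Finset.sum_range_succ]
    push_cast
    ring

lemma sum_cst (c : ℝ) (m : ℕ) :
    ∑ i ∈ range m, ∑ _j ∈ range i, c = c * (m * ((m : ℝ) - 1) / 2) := by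
  induction m with
  | zero => simp
  | succ m ih =>
    rw [Finset.sum_range_succ, ih, Finset.sum_const, card_range, nsmul_eq_mul]
    push_cast
    ring

lemma sum_sym (G : ℕ → ℕ → ℝ) (hG : ∀ i j, G i j = G j i) (m : ℕ) :
    ∑ i ∈ range m, ∑ j ∈ range m, (if i = j then 0 else G i j) =
      2 * ∑ i ∈ range m, ∑ j ∈ range i, G i j := by
  induction m with
  | zero => simp
  | succ m ih =>
    rw [Finset.sum_range_succ]
    have e1 : ∑ i ∈ range m, ∑ j ∈ range (m + 1), (if i = j then 0 else G i j) =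
        ∑ i ∈ range m, ∑ j ∈ range m, (if i = j then 0 else G i j) + ∑ i ∈ range m, G m i := by
      rw [← Finset.sum_add_distrib]
      apply Finset.sum_congr rfl
      intro i hi
      rw [mem_range] at hi
      rw [Finset.sum_range_succ, if_neg (by omega), hG i m]
    have e2 : ∑ j ∈ range (m + 1), (if m = j then 0 else G m j) = ∑ j ∈ range m, G m j := by
      rw [Finset.sum_range_succ, if_pos rfl, add_zero]
      apply Finset.sum_congr rfl
      intro j hj
      rw [mem_range] at hj
      rw [if_neg (by omega)]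
    rw [e1, e2, ih, Finset.sum_range_succ]
    ring

lemma sum_w (R : ℕ) (β β' β'' : ℕ → ℝ) (κ : ℝ) :
    ∑ c ∈ range (R + R), ∑ e ∈ range (R + R),
      (if c < R ∧ R ≤ e then β' c + β'' (e - R) + κ else β c + β e) =
      3 * R * ∑ c ∈ range (R + R), β c + R * ∑ c ∈ range R, β' c + R * ∑ c ∈ range R, β'' c +
        R ^ 2 * κ := by
  rw [Finset.sum_range_add]
  have h1 : ∀ c ∈ range R, ∑ e ∈ range (R + R),
      (if c < R ∧ R ≤ e then β' c + β'' (e - R) + κ else β c + β e) =
      (R * β c + ∑ e ∈ range R, β e) + (R * β' c + ∑ e ∈ range R, β'' e + R * κ) := by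
    intro c hc
    rw [mem_range] at hc
    rw [Finset.sum_range_add]
    congr 1
    · have : ∀ e ∈ range R, (if c < R ∧ R ≤ e then β' c + β'' (e - R) + κ else β c + β e) =
          β c + β e := by
        intro e he
        rw [mem_range] at he
        rw [if_neg (by omega)]
      rw [Finset.sum_congr rfl this, Finset.sum_add_distrib, Finset.sum_const, card_range,
        nsmul_eq_mul]
    · have : ∀ e ∈ range R, (if c < R ∧ R ≤ R + e then β' c + β'' (R + e - R) + κ
          else β c + β (R + e)) = β' c + β'' e + κ := by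
        intro e he
        rw [if_pos ⟨hc, by omega⟩, Nat.add_sub_cancel_left]
      rw [Finset.sum_congr rfl this, Finset.sum_add_distrib, Finset.sum_add_distrib,
        Finset.sum_const, Finset.sum_const, card_range, nsmul_eq_mul, nsmul_eq_mul]
  have h2 : ∀ c ∈ range R, ∑ e ∈ range (R + R),
      (if R + c < R ∧ R ≤ e then β' (R + c) + β'' (e - R) + κ else β (R + c) + β e) =
      2 * R * β (R + c) + ∑ e ∈ range (R + R), β e := by
    intro c hc
    have : ∀ e ∈ range (R + R), (if R + c < R ∧ R ≤ e then β' (R + c) + β'' (e - R) + κ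
        else β (R + c) + β e) = β (R + c) + β e := by
      intro e he
      rw [if_neg (by omega)]
    rw [Finset.sum_congr rfl this, Finset.sum_add_distrib, Finset.sum_const, card_range,
      nsmul_eq_mul]
    push_cast
    ring
  rw [Finset.sum_congr rfl h1, Finset.sum_congr rfl h2]
  simp only [Finset.sum_add_distrib, Finset.sum_const, card_range, nsmul_eq_mul,
    ← Finset.mul_sum]
  rw [Finset.sum_range_add]
  ring

/-! ### energies -/

/-- concatenation -/
def cat (R : ℕ) (a z : ℕ → K) (i : ℕ) : K := if i < R then a i else z (i - R)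

lemma sum_beta (v : DV K) (H : K → ℝ) (q : ℝ) (z : ℕ → K) (m : ℕ) :
    ∑ c ∈ range m, (∑ l ∈ range c, (v.o (z c - z l) : ℝ) + -(((m : ℝ) - 1) * H (z c))) =
      En v H q z m - q * (m * ((m : ℝ) - 1) / 2) := by
  have h1 : En v H q z m = ∑ c ∈ range m, ∑ l ∈ range c, (v.o (z c - z l) : ℝ) -
      ∑ c ∈ range m, ∑ l ∈ range c, (H (z c) + H (z l)) + ∑ c ∈ range m, ∑ _l ∈ range c, q := by
    unfold En g
    rw [← Finset.sum_sub_distrib, ← Finset.sum_add_distrib]
    apply Finset.sum_congr rfl
    intro c _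
    rw [← Finset.sum_sub_distrib, ← Finset.sum_add_distrib]
    apply Finset.sum_congr rfl
    intro l _
    ring
  rw [h1, sum_pair (fun i => H (z i)), sum_cst, Finset.sum_add_distrib, Finset.sum_neg_distrib,
    ← Finset.mul_sum]
  ring

lemma En_cat (v : DV K) (H : K → ℝ) (q : ℝ) (a z : ℕ → K) (R : ℕ) :
    En v H q (cat R a z) (R + R) = En v H q a R +
      ∑ c ∈ range R, (∑ l ∈ range R, g v H q (z c) (a l) + ∑ l ∈ range c, g v H q (z c) (z l)) := by
  unfold En
  rw [Finset.sum_range_add]
  congr 1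
  · apply Finset.sum_congr rfl
    intro i hi
    apply Finset.sum_congr rfl
    intro j hj
    rw [mem_range] at hi hj
    rw [cat, cat, if_pos hi, if_pos (by omega)]
  · apply Finset.sum_congr rfl
    intro c hc
    rw [Finset.sum_range_add]
    congr 1
    · apply Finset.sum_congr rfl
      intro l hl
      rw [mem_range] at hl
      rw [cat, cat, if_neg (by omega), if_pos hl, Nat.add_sub_cancel_left]
    · apply Finset.sum_congr rfl
      intro l _
      rw [cat, cat, if_neg (by omega), if_neg (by omega), Nat.add_sub_cancel_left,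
        Nat.add_sub_cancel_left]

lemma sum_beta' (v : DV K) (H : K → ℝ) (q : ℝ) (a z : ℕ → K) (R : ℕ) :
    ∑ c ∈ range R, (∑ l ∈ range c, (v.o (z c - z l) : ℝ) +
      (∑ l ∈ range R, (v.o (z c - a l) : ℝ) + -(((R : ℝ) + R - 1) * H (z c)))) =
      En v H q (cat R a z) (R + R) - En v H q a R + R * ∑ l ∈ range R, H (a l) -
        q * ((R : ℝ) ^ 2 + R * ((R : ℝ) - 1) / 2) := by
  rw [En_cat]
  have h1 : ∑ c ∈ range R, (∑ l ∈ range R, g v H q (z c) (a l) +
      ∑ l ∈ range c, g v H q (z c) (z l)) =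
      ∑ c ∈ range R, (∑ l ∈ range c, (v.o (z c - z l) : ℝ) + ∑ l ∈ range R, (v.o (z c - a l) : ℝ))
      - ∑ c ∈ range R, ∑ l ∈ range c, (H (z c) + H (z l)) + ∑ c ∈ range R, ∑ _l ∈ range c, q
      - (∑ c ∈ range R, ∑ l ∈ range R, (H (z c) + H (a l))) +
        ∑ _c ∈ range R, ∑ _l ∈ range R, q := by
    simp only [← Finset.sum_sub_distrib, ← Finset.sum_add_distrib]
    unfold g
    apply Finset.sum_congr rfl
    intro c _
    rw [← sub_eq_zero]
    simp only [Finset.sum_add_distrib, Finset.sum_sub_distrib]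
    ring
  rw [h1, sum_pair (fun i => H (z i)), sum_cst]
  simp only [Finset.sum_add_distrib, Finset.sum_const, card_range, nsmul_eq_mul,
    Finset.sum_neg_distrib, ← Finset.mul_sum]
  ring

/-! ### valuations -/

lemma ge_prod {v : DV K} {ι : Type*} (s : Finset ι) (c : ι → ℝ) (f : ι → K)
    (h : ∀ i ∈ s, v.ge (c i) (f i)) : v.ge (∑ i ∈ s, c i) (∏ i ∈ s, f i) := by
  classical
  induction s using Finset.induction_on with
  | empty => simpa using DV.ge_one
  | insert a s ha ih =>
    rw [Finset.prod_insert ha, Finset.sum_insert ha]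
    exact DV.ge_mul (h a (Finset.mem_insert_self a s)) (ih fun i hi => h i (Finset.mem_insert_of_mem hi))

lemma ge_det {v : DV K} {ι : Type*} [Fintype ι] [DecidableEq ι] (A : Matrix ι ι K) (r w : ι → ℝ)
    (h : ∀ i j, v.ge (r i + w j) (A i j)) : v.ge (∑ i, r i + ∑ j, w j) A.det := by
  rw [Matrix.det_apply']
  apply DV.ge_sum
  intro σ _
  have h1 : v.ge 0 (((Equiv.Perm.sign σ : ℤˣ) : ℤ) : K) := by
    rcases Int.units_eq_one_or (Equiv.Perm.sign σ) with h | h
    · rw [h]; simpa using (DV.ge_one (v := v))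
    · rw [h]
      simpa using DV.ge_neg (DV.ge_one (v := v))
  have h2 := ge_prod Finset.univ (fun i => r (σ i) + w i) (fun i => A (σ i) i)
    (fun i _ => h (σ i) i)
  rw [Finset.sum_add_distrib, Equiv.sum_comp σ r] at h2
  have h3 := DV.ge_mul h1 h2
  rwa [zero_add] at h3

lemma ge_map {v : DV K} {s : K →+* K} (hso : ∀ z, z ≠ 0 → v.o (s z) = v.o z) {c : ℝ} {z : K}
    (h : v.ge c z) : v.ge c (s z) := by
  rcases h with h | h
  · left; rw [h, map_zero]
  · by_cases hz : z = 0
    · left; rw [hz, map_zero]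
    · right; rw [hso z hz]; exact h

lemma ge_leja {v : DV K} {X : Finset K} {U : K → ℝ} {z : ℕ → K} {r : ℕ}
    (hz : ∀ c < r, ∀ x ∈ X, (∀ l < c, x ≠ z l) →
      ∑ l ∈ range c, (v.o (z c - z l) : ℝ) + U (z c) ≤ ∑ l ∈ range c, (v.o (x - z l) : ℝ) + U x)
    {c : ℕ} (hc : c < r) {x : K} (hx : x ∈ X) :
    v.ge (∑ l ∈ range c, (v.o (z c - z l) : ℝ) + U (z c) - U x) (∏ l ∈ range c, (x - z l)) := by
  by_cases h : ∃ l < c, x = z l
  · obtain ⟨l, hl, hxl⟩ := h
    left
    exact Finset.prod_eq_zero (mem_range.mpr hl) (by rw [hxl, sub_self])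
  · push Not at h
    right
    rw [v.o_prod _ _ (by
      intro l hl
      rw [mem_range] at hl
      exact sub_ne_zero.mpr (h l hl))]
    push_cast
    have := hz c hc x hx h
    linarith

/-- the secant lines -/
lemma ge_line {v : DV K} {s : K →+* K} {i₁ : ℝ}
    (hs : ∀ z, z ≠ 0 → v.ge (v.o z + i₁) (s z - z)) {a b : K} (hab : a ≠ b) (x : K) :
    v.ge ((v.o (x - a) : ℝ) + v.o (x - b) - v.o (a - b) + i₁)
      (s x - ((s a - s b) / (a - b) * x + (a * s b - b * s a) / (a - b))) := by
  have hab' : a - b ≠ 0 := sub_ne_zero.mpr hab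
  by_cases hxa : x = a
  · left; subst hxa; field_simp; ring
  by_cases hxb : x = b
  · left; subst hxb; field_simp; ring
  have hxa' : x - a ≠ 0 := sub_ne_zero.mpr hxa
  have hxb' : x - b ≠ 0 := sub_ne_zero.mpr hxb
  have e : s x - ((s a - s b) / (a - b) * x + (a * s b - b * s a) / (a - b)) =
      ((x - b) * (s (x - a) - (x - a)) - (x - a) * (s (x - b) - (x - b))) * (a - b)⁻¹ := by
    rw [map_sub, map_sub]
    field_simp
    ring
  rw [e]
  have h1 : v.ge ((v.o (x - a) : ℝ) + v.o (x - b) + i₁) ((x - b) * (s (x - a) - (x - a))) := by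
    refine DV.ge_mono (DV.ge_mul (DV.ge_self (x - b)) (hs _ hxa')) (le_of_eq ?_)
    ring
  have h2 : v.ge ((v.o (x - a) : ℝ) + v.o (x - b) + i₁) ((x - a) * (s (x - b) - (x - b))) := by
    refine DV.ge_mono (DV.ge_mul (DV.ge_self (x - a)) (hs _ hxb')) (le_of_eq ?_)
    ring
  refine DV.ge_mono (DV.ge_mul (DV.ge_sub h1 h2) (DV.ge_inv hab' le_rfl)) (le_of_eq ?_)
  ring

/-! ### coefficient degrees -/

/-- all coefficients have degree at most `D` -/
def Bd (M : K[X][X]) (D : ℕ) : Prop := ∀ q, (M.coeff q).natDegree ≤ D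

lemma Bd.mul {M N : K[X][X]} {D E : ℕ} (hM : Bd M D) (hN : Bd N E) : Bd (M * N) (D + E) := by
  intro q
  rw [Polynomial.coeff_mul]
  apply Polynomial.natDegree_sum_le_of_forall_le
  intro p _
  exact Polynomial.natDegree_mul_le.trans (Nat.add_le_add (hM _) (hN _))

lemma Bd.prod (D : ℕ) (P : ℕ → K[X][X]) (n : ℕ) (h : ∀ l < n, Bd (P l) D) :
    Bd (∏ l ∈ range n, P l) (n * D) := by
  induction n with
  | zero =>
    intro q
    simp only [range_zero, prod_empty, Nat.zero_mul, Nat.le_zero]
    rw [Polynomial.coeff_one]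
    split_ifs <;> simp
  | succ n ih =>
    rw [Finset.prod_range_succ, Nat.succ_mul]
    exact (ih fun l hl => h l (by omega)).mul (h n (by omega))

lemma Bd.lin {p : K[X]} {D : ℕ} (hp : p.natDegree ≤ D) : Bd (X - C p : K[X][X]) D := by
  intro q
  rw [Polynomial.coeff_sub, Polynomial.coeff_X, Polynomial.coeff_C]
  by_cases h0 : q = 0
  · subst h0
    simpa using hp
  · rw [if_neg h0, sub_zero]
    split_ifs <;> simp


/-! ### the two kinds of functions -/

/-- monic polynomial with given roots -/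
noncomputable def mp (z : ℕ → K) (c : ℕ) : K[X] := ∏ l ∈ range c, (X - C (z l))

lemma mp_monic (z : ℕ → K) (c : ℕ) : (mp z c).Monic := Polynomial.monic_prod_X_sub_C _ _

lemma mp_natDegree (z : ℕ → K) (c : ℕ) : (mp z c).natDegree = c := by
  unfold mp
  rw [Polynomial.natDegree_prod_of_monic _ _ (fun i _ => Polynomial.monic_X_sub_C _)]
  simp

lemma mp_eval (z : ℕ → K) (c : ℕ) (x : K) : (mp z c).eval x = ∏ l ∈ range c, (x - z l) := by
  unfold mp
  rw [Polynomial.eval_prod]
  simp

/-- monic polynomial in `Y` with given roots in `K[X]` -/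
noncomputable def mP (p : ℕ → K[X]) (c : ℕ) : K[X][X] := ∏ l ∈ range c, (X - C (p l))

lemma mP_monic (z : ℕ → K[X]) (c : ℕ) : (mP z c).Monic := Polynomial.monic_prod_X_sub_C _ _

lemma mP_natDegree (z : ℕ → K[X]) (c : ℕ) : (mP z c).natDegree = c := by
  unfold mP
  rw [Polynomial.natDegree_prod_of_monic _ _ (fun i _ => Polynomial.monic_X_sub_C _)]
  simp

lemma mP_eval (z : ℕ → K[X]) (c : ℕ) (x y : K) :
    (mP z c).evalEval x y = ∏ l ∈ range c, (y - (z l).eval x) := by
  unfold mP
  rw [Polynomial.evalEval, Polynomial.eval_prod, Polynomial.eval_prod]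
  simp

lemma Bd_mP (p : ℕ → K[X]) (c D : ℕ) (hp : ∀ l < c, (p l).natDegree ≤ D) :
    Bd (mP p c) (c * D) :=
  Bd.prod D _ c fun l hl => Bd.lin (hp l hl)

/-- the first factor -/
noncomputable def phi (R : ℕ) (z z' : ℕ → K) (c e : ℕ) : K[X] :=
  if c < R ∧ R ≤ e then mp z' c else mp z c

/-- the line through `(a, s a)` and `(b, s b)` -/
noncomputable def line (s : K →+* K) (a b : K) : K[X] :=
  C ((s a - s b) / (a - b)) * X + C ((a * s b - b * s a) / (a - b))

/-- the second factor -/
noncomputable def Mf (s : K →+* K) (R : ℕ) (z z'' a b : ℕ → K) (c e : ℕ) : K[X][X] :=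
  if c < R ∧ R ≤ e then mP (fun l => line s (a l) (b l)) R * mP (fun l => C (s (z'' l))) (e - R)
  else mP (fun l => C (s (z l))) e

lemma phi_monic (R : ℕ) (z z' : ℕ → K) (c e : ℕ) : (phi R z z' c e).Monic := by
  unfold phi
  split_ifs <;> exact mp_monic _ _

lemma phi_natDegree (R : ℕ) (z z' : ℕ → K) (c e : ℕ) : (phi R z z' c e).natDegree = c := by
  unfold phi
  split_ifs <;> exact mp_natDegree _ _

lemma Mf_monic (s : K →+* K) (R : ℕ) (z z'' a b : ℕ → K) (c e : ℕ) :
    (Mf s R z z'' a b c e).Monic := by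
  unfold Mf
  split_ifs
  · exact (mP_monic _ _).mul (mP_monic _ _)
  · exact mP_monic _ _

lemma Mf_natDegree (s : K →+* K) (R : ℕ) (z z'' a b : ℕ → K) (c e : ℕ) :
    (Mf s R z z'' a b c e).natDegree = e := by
  unfold Mf
  split_ifs with h
  · rw [(mP_monic _ _).natDegree_mul (mP_monic _ _), mP_natDegree, mP_natDegree]
    omega
  · exact mP_natDegree _ _

lemma line_natDegree (s : K →+* K) (a b : K) : (line s a b).natDegree ≤ 1 := by
  unfold line
  exact Polynomial.natDegree_linear_le

lemma phi_Mf_deg (s : K →+* K) (R : ℕ) (z z' z'' a b : ℕ → K) (c e q : ℕ) (hc : c < R + R) :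
    (phi R z z' c e * (Mf s R z z'' a b c e).coeff q).natDegree < R + R := by
  refine lt_of_le_of_lt Polynomial.natDegree_mul_le ?_
  rw [phi_natDegree]
  by_cases h : c < R ∧ R ≤ e
  · have : Bd (Mf s R z z'' a b c e) (R * 1 + (e - R) * 0) := by
      unfold Mf
      rw [if_pos h]
      exact (Bd_mP _ _ _ fun l _ => line_natDegree s _ _).mul
        (Bd_mP _ _ _ fun l _ => by simp)
    have := this q
    omega
  · have : Bd (Mf s R z z'' a b c e) (e * 0) := by
      unfold Mf
      rw [if_neg h]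
      exact Bd_mP _ _ _ fun l _ => by simp
    have := this q
    omega

/-- **Lemma W**, for given Leja sequences and given pairs. -/
theorem lemmaW_aux (v : DV K) (s : K →+* K) (hso : ∀ z, z ≠ 0 → v.o (s z) = v.o z) (i₁ : ℝ)
    (hs : ∀ z, z ≠ 0 → v.ge (v.o z + i₁) (s z - z)) (X : Finset K) (H : K → ℝ) (q : ℝ) (R : ℕ)
    (hR : R + R ≤ X.card) (E : ℝ)
    (hE : ∀ t : ℕ → K, (∀ i < R + R, t i ∈ X) → (∀ i < R + R, ∀ j < i, t i ≠ t j) →
      E ≤ En v H q t (R + R))
    (a b : ℕ → K) (haX : ∀ l < R, a l ∈ X) (hbX : ∀ l < R, b l ∈ X)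
    (haa : ∀ l < R, ∀ j < l, a l ≠ a j) (hbb : ∀ l < R, ∀ j < l, b l ≠ b j)
    (hab : ∀ l < R, a l ≠ b l)
    (hPsi : En v H q a R + En v H q b R + R * ∑ l ∈ range R, g v H q (a l) (b l) ≤ E)
    (x : Fin (R + R) × Fin (R + R) → K) (hx : ∀ j, x j ∈ X) :
    v.ge (2 * ((R : ℝ) + R - 1) * ∑ j, H (x j) - q * ((R : ℝ) + R - 1) * ((R : ℝ) + R) ^ 2 +
        2 * ((R : ℝ) + R) * E + (R : ℝ) ^ 3 * i₁)
      (Matrix.of fun j (pq : Fin (R + R) × Fin (R + R)) =>
        x j ^ (pq.1 : ℕ) * (s (x j)) ^ (pq.2 : ℕ)).det := by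
  classical
  set n : ℝ := (R : ℝ) + R - 1 with hn
  -- Leja sequences
  obtain ⟨z, hz1, hz2, hz3⟩ := exists_leja (fun y y' => (v.o (y - y') : ℝ)) X
    (fun y => -(n * H y)) (R + R) hR
  have hcardA : R ≤ (X \ (range R).image a).card := by
    have e1 : ((range R).image a).card ≤ R := Finset.card_image_le.trans (by simp)
    have e2 := Finset.le_card_sdiff ((range R).image a) X
    omega
  have hcardB : R ≤ (X \ (range R).image b).card := by
    have e1 : ((range R).image b).card ≤ R := Finset.card_image_le.trans (by simp)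
    have e2 := Finset.le_card_sdiff ((range R).image b) X
    omega
  obtain ⟨z', hz1', hz2', hz3'⟩ := exists_leja (fun y y' => (v.o (y - y') : ℝ))
    (X \ (range R).image a)
    (fun y => ∑ l ∈ range R, (v.o (y - a l) : ℝ) + -(n * H y)) R hcardA
  obtain ⟨z'', hz1'', hz2'', hz3''⟩ := exists_leja (fun y y' => (v.o (y - y') : ℝ))
    (X \ (range R).image b)
    (fun y => ∑ l ∈ range R, (v.o (y - b l) : ℝ) + -(n * H y)) R hcardB
  -- the constants
  set β : ℕ → ℝ := fun c => ∑ l ∈ range c, (v.o (z c - z l) : ℝ) + -(n * H (z c)) with hβ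
  set β' : ℕ → ℝ := fun c => ∑ l ∈ range c, (v.o (z' c - z' l) : ℝ) +
    (∑ l ∈ range R, (v.o (z' c - a l) : ℝ) + -(n * H (z' c))) with hβ'
  set β'' : ℕ → ℝ := fun c => ∑ l ∈ range c, (v.o (z'' c - z'' l) : ℝ) +
    (∑ l ∈ range R, (v.o (z'' c - b l) : ℝ) + -(n * H (z'' c))) with hβ''
  set κ : ℝ := -∑ l ∈ range R, (v.o (a l - b l) : ℝ) + R * i₁ with hκ
  -- change of basis
  rw [← det_basis (R + R) (fun ce => phi R z z' ce.1 ce.2) (fun ce => Mf s R z z'' a b ce.1 ce.2)
    (fun ce => phi_monic _ _ _ _ _) (fun ce => phi_natDegree _ _ _ _ _)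
    (fun ce => Mf_monic _ _ _ _ _ _ _ _) (fun ce => Mf_natDegree _ _ _ _ _ _ _ _)
    (fun ce q => phi_Mf_deg s R z z' z'' a b ce.1 ce.2 q ce.1.2) x (fun j => s (x j))]
  -- entries
  have hentry : ∀ j (ce : Fin (R + R) × Fin (R + R)), v.ge (2 * n * H (x j) +
      (if (ce.1 : ℕ) < R ∧ R ≤ (ce.2 : ℕ) then β' ce.1 + β'' (ce.2 - R) + κ
        else β ce.1 + β ce.2))
      ((phi R z z' ce.1 ce.2).eval (x j) *
        (Mf s R z z'' a b ce.1 ce.2).evalEval (x j) (s (x j))) := by
    intro j ce
    obtain ⟨⟨c, hc⟩, ⟨e, he⟩⟩ := ce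
    simp only
    set y := x j with hy
    have hyX : y ∈ X := hx j
    by_cases h : c < R ∧ R ≤ e
    · rw [if_pos h]
      unfold phi Mf
      rw [if_pos h, if_pos h, mp_eval, Polynomial.evalEval_mul, mP_eval, mP_eval]
      simp only [eval_C]
      -- y in A or B: zero
      by_cases hyA : y ∈ (range R).image a
      · left
        rw [mem_image] at hyA
        obtain ⟨l, hl, hly⟩ := hyA
        have : ∏ l ∈ range R, (s y - (line s (a l) (b l)).eval y) = 0 := by
          apply Finset.prod_eq_zero hl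
          have hne : a l - b l ≠ 0 := sub_ne_zero.mpr (hab l (mem_range.mp hl))
          unfold line
          simp only [eval_add, eval_mul, eval_C, eval_X]
          rw [← hly]
          field_simp
          ring
        rw [this]
        ring
      by_cases hyB : y ∈ (range R).image b
      · left
        rw [mem_image] at hyB
        obtain ⟨l, hl, hly⟩ := hyB
        have : ∏ l ∈ range R, (s y - (line s (a l) (b l)).eval y) = 0 := by
          apply Finset.prod_eq_zero hl
          have hne : a l - b l ≠ 0 := sub_ne_zero.mpr (hab l (mem_range.mp hl))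
          unfold line
          simp only [eval_add, eval_mul, eval_C, eval_X]
          rw [← hly]
          field_simp
          ring
        rw [this]
        ring
      have h1 := ge_leja (v := v)
        (U := fun y => ∑ l ∈ range R, (v.o (y - a l) : ℝ) + -(n * H y)) (z := z') hz3' h.1 (mem_sdiff.mpr ⟨hyX, hyA⟩)
      have h2 := ge_leja (v := v)
        (U := fun y => ∑ l ∈ range R, (v.o (y - b l) : ℝ) + -(n * H y)) (z := z'') hz3''
        (show e - R < R by omega) (mem_sdiff.mpr ⟨hyX, hyB⟩)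
      have h2' := ge_map hso h2
      rw [map_prod] at h2'
      simp only [map_sub] at h2'
      have h3 : v.ge (∑ l ∈ range R, ((v.o (y - a l) : ℝ) + v.o (y - b l) - v.o (a l - b l) + i₁))
          (∏ l ∈ range R, (s y - (line s (a l) (b l)).eval y)) := by
        apply ge_prod
        intro l hl
        have := ge_line hs (hab l (mem_range.mp hl)) y
        unfold line
        simp only [eval_add, eval_mul, eval_C, eval_X]
        exact this
      refine DV.ge_mono (DV.ge_mul h1 (DV.ge_mul h3 h2')) (le_of_eq ?_)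
      rw [hβ', hβ'', hκ]
      simp only [Finset.sum_add_distrib, Finset.sum_sub_distrib, Finset.sum_const, card_range,
        nsmul_eq_mul]
      ring
    · rw [if_neg h]
      unfold phi Mf
      rw [if_neg h, if_neg h, mp_eval, mP_eval]
      simp only [eval_C]
      have h1 := ge_leja (v := v) (U := fun y => -(n * H y)) (z := z) hz3 hc hyX
      have h2 := ge_leja (v := v) (U := fun y => -(n * H y)) (z := z) hz3 he hyX
      have h2' := ge_map hso h2
      rw [map_prod] at h2'
      simp only [map_sub] at h2'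
      refine DV.ge_mono (DV.ge_mul h1 h2') (le_of_eq ?_)
      rw [hβ]
      ring
  have hdet := ge_det (Matrix.of fun j (ce : Fin (R + R) × Fin (R + R)) =>
    (phi R z z' ce.1 ce.2).eval (x j) * (Mf s R z z'' a b ce.1 ce.2).evalEval (x j) (s (x j)))
    (fun j => 2 * n * H (x j)) (fun ce => if (ce.1 : ℕ) < R ∧ R ≤ (ce.2 : ℕ) then
      β' ce.1 + β'' (ce.2 - R) + κ else β ce.1 + β ce.2) hentry
  refine DV.ge_mono hdet ?_
  -- the total
  have hW : ∑ ce : Fin (R + R) × Fin (R + R), (if (ce.1 : ℕ) < R ∧ R ≤ (ce.2 : ℕ) then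
      β' ce.1 + β'' (ce.2 - R) + κ else β ce.1 + β ce.2) =
      3 * R * ∑ c ∈ range (R + R), β c + R * ∑ c ∈ range R, β' c + R * ∑ c ∈ range R, β'' c +
        R ^ 2 * κ := by
    rw [← sum_w, Fintype.sum_prod_type,
      ← Fin.sum_univ_eq_sum_range (fun c => ∑ e ∈ range (R + R),
        (if c < R ∧ R ≤ e then β' c + β'' (e - R) + κ else β c + β e)) (R + R)]
    apply Finset.sum_congr rfl
    intro c _
    rw [← Fin.sum_univ_eq_sum_range (fun e =>
        (if (c : ℕ) < R ∧ R ≤ e then β' c + β'' (e - R) + κ else β c + β e)) (R + R)]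
  rw [hW]
  have hS0 := sum_beta v H q z (R + R)
  have hS1 := sum_beta' v H q a z' R
  have hS2 := sum_beta' v H q b z'' R
  have hn' : (((R + R : ℕ) : ℝ) - 1) = n := by rw [hn]; push_cast; ring
  rw [hn'] at hS0
  rw [← hn] at hS1 hS2
  have hS0' : ∑ c ∈ range (R + R), β c = En v H q z (R + R) -
      q * (((R + R : ℕ) : ℝ) * n / 2) := hS0
  have hS1' : ∑ c ∈ range R, β' c = En v H q (cat R a z') (R + R) - En v H q a R +
      R * ∑ l ∈ range R, H (a l) - q * ((R : ℝ) ^ 2 + R * ((R : ℝ) - 1) / 2) := hS1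
  have hS2' : ∑ c ∈ range R, β'' c = En v H q (cat R b z'') (R + R) - En v H q b R +
      R * ∑ l ∈ range R, H (b l) - q * ((R : ℝ) ^ 2 + R * ((R : ℝ) - 1) / 2) := hS2
  have hG : ∑ l ∈ range R, (v.o (a l - b l) : ℝ) = ∑ l ∈ range R, g v H q (a l) (b l) +
      ∑ l ∈ range R, H (a l) + ∑ l ∈ range R, H (b l) - R * q := by
    have : ∀ l ∈ range R, (v.o (a l - b l) : ℝ) = g v H q (a l) (b l) + H (a l) + H (b l) - q := by
      intro l _
      unfold g
      ring
    rw [Finset.sum_congr rfl this]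
    simp only [Finset.sum_add_distrib, Finset.sum_sub_distrib, Finset.sum_const, card_range,
      nsmul_eq_mul]
  have hE0 : E ≤ En v H q z (R + R) := hE z hz1 hz2
  have hE1 : E ≤ En v H q (cat R a z') (R + R) := by
    apply hE
    · intro i hi
      unfold cat
      split_ifs with h
      · exact haX i h
      · exact (mem_sdiff.mp (hz1' (i - R) (by omega))).1
    · intro i hi j hj
      unfold cat
      by_cases h : i < R
      · rw [if_pos h, if_pos (by omega)]
        exact haa i h j hj
      · rw [if_neg h]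
        by_cases h' : j < R
        · rw [if_pos h']
          intro hc
          exact (mem_sdiff.mp (hz1' (i - R) (by omega))).2
            (mem_image.mpr ⟨j, mem_range.mpr h', hc.symm⟩)
        · rw [if_neg h']
          exact hz2' (i - R) (by omega) (j - R) (by omega)
  have hE2 : E ≤ En v H q (cat R b z'') (R + R) := by
    apply hE
    · intro i hi
      unfold cat
      split_ifs with h
      · exact hbX i h
      · exact (mem_sdiff.mp (hz1'' (i - R) (by omega))).1
    · intro i hi j hj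
      unfold cat
      by_cases h : i < R
      · rw [if_pos h, if_pos (by omega)]
        exact hbb i h j hj
      · rw [if_neg h]
        by_cases h' : j < R
        · rw [if_pos h']
          intro hc
          exact (mem_sdiff.mp (hz1'' (i - R) (by omega))).2
            (mem_image.mpr ⟨j, mem_range.mpr h', hc.symm⟩)
        · rw [if_neg h']
          exact hz2'' (i - R) (by omega) (j - R) (by omega)
  rw [hS0', hS1', hS2', hκ, hG, ← Finset.mul_sum]
  have hR0 : (0 : ℝ) ≤ R := Nat.cast_nonneg R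
  push_cast
  rw [hn]
  nlinarith [mul_nonneg hR0 (sub_nonneg.mpr hE0), mul_nonneg hR0 (sub_nonneg.mpr hE1),
    mul_nonneg hR0 (sub_nonneg.mpr hE2), mul_nonneg hR0 (sub_nonneg.mpr hPsi)]

/-! ### the choice of the pairs -/

/-- the weights of the pairs -/
noncomputable def Wt (R i j : ℕ) : ℝ :=
  if i < R then 1 else if R ≤ j then 1 else if i = R + j then R else 0

lemma sum_Wt (R : ℕ) (F : ℕ → ℕ → ℝ) :
    ∑ i ∈ range (R + R), ∑ j ∈ range i, Wt R i j * F i j =
      ∑ i ∈ range R, ∑ j ∈ range i, F i j + ∑ c ∈ range R, ∑ l ∈ range c, F (R + c) (R + l) +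
        R * ∑ c ∈ range R, F (R + c) c := by
  rw [Finset.sum_range_add, add_assoc]
  congr 1
  · apply Finset.sum_congr rfl
    intro i hi
    apply Finset.sum_congr rfl
    intro j _
    rw [mem_range] at hi
    rw [Wt, if_pos hi, one_mul]
  · rw [Finset.mul_sum, ← Finset.sum_add_distrib]
    apply Finset.sum_congr rfl
    intro c hc
    rw [mem_range] at hc
    rw [Finset.sum_range_add, add_comm]
    congr 1
    · apply Finset.sum_congr rfl
      intro l _
      rw [Wt, if_neg (by omega), if_pos (by omega), one_mul]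
    · rw [Finset.sum_eq_single c]
      · rw [Wt, if_neg (by omega), if_neg (by omega), if_pos rfl]
      · intro j hj hjc
        rw [mem_range] at hj
        rw [Wt, if_neg (by omega), if_neg (by omega), if_neg (by omega), zero_mul]
      · intro h
        exact absurd (mem_range.mpr hc) h

/-- extension of a family to a sequence -/
def ext {m : ℕ} (f : Fin m → K) (i : ℕ) : K := if h : i < m then f ⟨i, h⟩ else 0

lemma ext_val {m : ℕ} (f : Fin m → K) (i : Fin m) : ext f i = f i := by
  rw [ext, dif_pos i.2]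

lemma sum_lt (m : ℕ) (F : ℕ → ℕ → ℝ) :
    ∑ i : Fin m, ∑ j : Fin m, (if (j : ℕ) < i then F i j else 0) =
      ∑ i ∈ range m, ∑ j ∈ range i, F i j := by
  rw [← Fin.sum_univ_eq_sum_range (fun i => ∑ j ∈ range i, F i j) m]
  apply Finset.sum_congr rfl
  intro i _
  rw [Fin.sum_univ_eq_sum_range (fun j => if j < (i : ℕ) then F i j else 0) m,
    ← Finset.sum_filter]
  congr 1
  ext j
  simp only [mem_filter, mem_range]
  have := i.2
  omega

/-- **Lemma W.** `v` is a valuation, `s` an endomorphism with `v (s z - z) ≥ v z + i₁`. If `e₀` is a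
lower bound for the energies of the `2 R`-point subsets of the finite set `X`, then the near-diagonal
determinant of size `(2 R) ^ 2` of any points of `X` has a gain of `R ^ 3 i₁`. -/
theorem lemmaW (v : DV K) (s : K →+* K) (hso : ∀ z, z ≠ 0 → v.o (s z) = v.o z) (i₁ : ℝ)
    (hs : ∀ z, z ≠ 0 → v.ge (v.o z + i₁) (s z - z)) (X : Finset K) (H : K → ℝ) (q : ℝ) (R : ℕ)
    (hR : R + R ≤ X.card) (e₀ : ℝ)
    (hE : ∀ t : ℕ → K, (∀ i < R + R, t i ∈ X) → (∀ i < R + R, ∀ j < i, t i ≠ t j) →
      e₀ ≤ En v H q t (R + R))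
    (x : Fin (R + R) × Fin (R + R) → K) (hx : ∀ j, x j ∈ X) :
    v.ge (2 * ((R : ℝ) + R - 1) * ∑ j, H (x j) - q * ((R : ℝ) + R - 1) * ((R : ℝ) + R) ^ 2 +
        2 * ((R : ℝ) + R) * e₀ + (R : ℝ) ^ 3 * i₁)
      (Matrix.of fun j (pq : Fin (R + R) × Fin (R + R)) =>
        x j ^ (pq.1 : ℕ) * (s (x j)) ^ (pq.2 : ℕ)).det := by
  classical
  rcases Nat.eq_zero_or_pos R with hR0 | hRpos
  · subst hR0
    have : IsEmpty (Fin (0 + 0)) := ⟨fun i => absurd i.2 (by omega)⟩
    rw [Matrix.det_isEmpty]
    simpa using (DV.ge_one (v := v))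
  -- the minimal family
  set Fam : Finset (Fin (R + R) → K) :=
    (Fintype.piFinset (fun _ : Fin (R + R) => X)).filter Function.Injective with hFam
  have hne : Fam.Nonempty := by
    have h1 : Fintype.card (Fin (R + R)) ≤ Fintype.card X := by
      rw [Fintype.card_fin, Fintype.card_coe]; exact hR
    obtain ⟨f⟩ := Function.Embedding.nonempty_of_card_le h1
    refine ⟨fun i => (f i : K), ?_⟩
    rw [hFam, mem_filter, Fintype.mem_piFinset]
    exact ⟨fun i => (f i).2, fun i j hij => f.injective (Subtype.ext hij)⟩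
  obtain ⟨P, hP, hPmin⟩ := Finset.exists_min_image Fam (fun f => En v H q (ext f) (R + R)) hne
  rw [hFam, mem_filter, Fintype.mem_piFinset] at hP
  obtain ⟨hPX, hPinj⟩ := hP
  set E : ℝ := En v H q (ext P) (R + R) with hEdef
  have hEmin : ∀ t : ℕ → K, (∀ i < R + R, t i ∈ X) → (∀ i < R + R, ∀ j < i, t i ≠ t j) →
      E ≤ En v H q t (R + R) := by
    intro t h1 h2
    have h3 : (fun i : Fin (R + R) => t i) ∈ Fam := by
      rw [hFam, mem_filter, Fintype.mem_piFinset]
      refine ⟨fun i => h1 i i.2, ?_⟩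
      intro i j hij
      simp only at hij
      rcases lt_trichotomy (i : ℕ) j with h | h | h
      · exact absurd hij.symm (h2 j j.2 i h)
      · exact Fin.ext h
      · exact absurd hij (h2 i i.2 j h)
    refine (hPmin _ h3).trans (le_of_eq ?_)
    unfold En
    apply Finset.sum_congr rfl
    intro i hi
    apply Finset.sum_congr rfl
    intro j hj
    rw [mem_range] at hi hj
    rw [ext, ext, dif_pos hi, dif_pos (by omega)]
  have he₀ : e₀ ≤ E := by
    apply hE
    · intro i hi
      rw [ext, dif_pos hi]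
      exact hPX _
    · intro i hi j hj
      rw [ext, ext, dif_pos hi, dif_pos (by omega)]
      intro hc
      have := hPinj hc
      rw [Fin.mk.injEq] at this
      omega
  -- averaging
  obtain ⟨σ, hσ⟩ := exists_perm_le
    (fun i j : Fin (R + R) => if (j : ℕ) < i then Wt R i j else 0)
    (fun i j => g v H q (P i) (P j)) (fun i => by simp) (by rw [Fintype.card_fin]; omega)
  set t : ℕ → K := ext (P ∘ σ) with ht
  have e1 : (∑ i : Fin (R + R), ∑ j : Fin (R + R), (if (j : ℕ) < i then Wt R i j else 0) *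
      g v H q (P (σ i)) (P (σ j))) =
      ∑ i ∈ range R, ∑ j ∈ range i, g v H q (t i) (t j) +
        ∑ c ∈ range R, ∑ l ∈ range c, g v H q (t (R + c)) (t (R + l)) +
        R * ∑ c ∈ range R, g v H q (t (R + c)) (t c) := by
    rw [← sum_Wt R (fun i j => g v H q (t i) (t j)),
      ← sum_lt (R + R) (fun i j => Wt R i j * g v H q (t i) (t j))]
    apply Finset.sum_congr rfl
    intro i _
    apply Finset.sum_congr rfl
    intro j _
    rw [ht, ext_val, ext_val]
    split_ifs
    · rfl
    · ring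
  have e2 : (∑ i : Fin (R + R), ∑ j : Fin (R + R), (if (j : ℕ) < i then Wt R i j else 0)) =
      R * (2 * R - 1) := by
    rw [sum_lt (R + R) (fun i j => Wt R i j)]
    have := sum_Wt R (fun _ _ => 1)
    simp only [mul_one] at this
    rw [this, sum_cst, Finset.sum_const, card_range, nsmul_eq_mul]
    ring
  have e3 : (∑ i : Fin (R + R), ∑ j : Fin (R + R), (if i = j then 0 else g v H q (P i) (P j))) =
      2 * E := by
    rw [hEdef]
    unfold En
    rw [← sum_sym (fun i j => g v H q (ext P i) (ext P j)) (fun i j => g_comm _ _ _ _ _) (R + R),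
      ← Fin.sum_univ_eq_sum_range (fun i => ∑ j ∈ range (R + R),
        if i = j then 0 else g v H q (ext P i) (ext P j)) (R + R)]
    apply Finset.sum_congr rfl
    intro i _
    rw [← Fin.sum_univ_eq_sum_range (fun j =>
        if (i : ℕ) = j then 0 else g v H q (ext P i) (ext P j)) (R + R)]
    apply Finset.sum_congr rfl
    intro j _
    rw [ext_val, ext_val]
    simp only [Fin.ext_iff]
  rw [e1, e2, e3, Fintype.card_fin] at hσ
  have hR1 : (1 : ℝ) ≤ R := by exact_mod_cast hRpos
  have hPsi : ∑ i ∈ range R, ∑ j ∈ range i, g v H q (t i) (t j) +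
        ∑ c ∈ range R, ∑ l ∈ range c, g v H q (t (R + c)) (t (R + l)) +
        R * ∑ c ∈ range R, g v H q (t (R + c)) (t c) ≤ E := by
    have hpos : (0 : ℝ) < ((R + R : ℕ) : ℝ) * (((R + R : ℕ) : ℝ) - 1) := by
      push_cast
      nlinarith
    refine le_of_mul_le_mul_right (hσ.trans (le_of_eq ?_)) hpos
    push_cast
    ring
  have htX : ∀ i < R + R, t i ∈ X := by
    intro i hi
    rw [ht, ext, dif_pos hi]
    exact hPX _
  have htne : ∀ i < R + R, ∀ j < R + R, i ≠ j → t i ≠ t j := by
    intro i hi j hj hij hc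
    rw [ht, ext, ext, dif_pos hi, dif_pos hj] at hc
    have h1 := σ.injective (hPinj hc)
    rw [Fin.mk.injEq] at h1
    exact hij h1
  have key := lemmaW_aux v s hso i₁ hs X H q R hR E hEmin t (fun l => t (R + l))
    (fun l hl => htX l (by omega)) (fun l hl => htX _ (by omega))
    (fun l hl j hj => htne l (by omega) j (by omega) (by omega))
    (fun l hl j hj => htne _ (by omega) _ (by omega) (by omega))
    (fun l hl => htne _ (by omega) _ (by omega) (by omega)) (by
      unfold En
      refine le_trans (le_of_eq ?_) hPsi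
      congr 2
      apply Finset.sum_congr rfl
      intro l _
      exact g_comm _ _ _ _ _) x hx
  refine DV.ge_mono key ?_
  have : 0 ≤ 2 * ((R : ℝ) + R) * (E - e₀) := by
    apply mul_nonneg
    · positivity
    · linarith
  nlinarith

end Pool.Agent.Helper55.LW
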