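import Pool.Agent.Helper33.PT.Defs
import Pool.Agent.Helper55.LW.Main

/-!
# Lemma W in the form of Plan T (module T-LW)
-/

set_option autoImplicit false

open Finset Polynomial

namespace Pool.Agent.Helper55.LWI

open Pool.Agent.Helper33 Pool.Agent.Helper55.LW

variable {K ι : Type*} [Field K]

/-- pair energy -/
noncomputable def gi (v : DV K) (x : ι → K) (H : ι → ℝ) (q : ℝ) (a b : ι) : ℝ :=
  (v.o (x a - x b) : ℝ) - H a - H b + q

/-- energy of the first `m` terms of a sequence of indices -/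
noncomputable def Es (v : DV K) (x : ι → K) (H : ι → ℝ) (q : ℝ) (t : ℕ → ι) (m : ℕ) : ℝ :=
  ∑ i ∈ range m, ∑ j ∈ range i, gi v x H q (t i) (t j)

lemma gi_comm (v : DV K) (x : ι → K) (H : ι → ℝ) (q : ℝ) (a b : ι) :
    gi v x H q a b = gi v x H q b a := by
  unfold gi
  rw [v.o_sub_comm (x a) (x b)]
  ring

/-- concatenation -/
def cati (R : ℕ) (a z : ℕ → ι) (i : ℕ) : ι := if i < R then a i else z (i - R)

lemma sum_beta (v : DV K) (x : ι → K) (H : ι → ℝ) (q : ℝ) (z : ℕ → ι) (m : ℕ) :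
    ∑ c ∈ range m, (∑ l ∈ range c, (v.o (x (z c) - x (z l)) : ℝ) + -(((m : ℝ) - 1) * H (z c))) =
      Es v x H q z m - q * (m * ((m : ℝ) - 1) / 2) := by
  have h1 : Es v x H q z m = ∑ c ∈ range m, ∑ l ∈ range c, (v.o (x (z c) - x (z l)) : ℝ) -
      ∑ c ∈ range m, ∑ l ∈ range c, (H (z c) + H (z l)) + ∑ c ∈ range m, ∑ _l ∈ range c, q := by
    unfold Es gi
    rw [← Finset.sum_sub_distrib, ← Finset.sum_add_distrib]
    apply Finset.sum_congr rfl
    intro c _
    rw [← Finset.sum_sub_distrib, ← Finset.sum_add_distrib]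
    apply Finset.sum_congr rfl
    intro l _
    ring
  rw [h1, sum_pair (fun i => H (z i)), sum_cst, Finset.sum_add_distrib, Finset.sum_neg_distrib,
    ← Finset.mul_sum]
  ring

lemma Es_cat (v : DV K) (x : ι → K) (H : ι → ℝ) (q : ℝ) (a z : ℕ → ι) (R : ℕ) :
    Es v x H q (cati R a z) (R + R) = Es v x H q a R +
      ∑ c ∈ range R, (∑ l ∈ range R, gi v x H q (z c) (a l) +
        ∑ l ∈ range c, gi v x H q (z c) (z l)) := by
  unfold Es
  rw [Finset.sum_range_add]
  congr 1
  · apply Finset.sum_congr rfl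
    intro i hi
    apply Finset.sum_congr rfl
    intro j hj
    rw [mem_range] at hi hj
    rw [cati, cati, if_pos hi, if_pos (by omega)]
  · apply Finset.sum_congr rfl
    intro c hc
    rw [Finset.sum_range_add]
    congr 1
    · apply Finset.sum_congr rfl
      intro l hl
      rw [mem_range] at hl
      rw [cati, cati, if_neg (by omega), if_pos hl, Nat.add_sub_cancel_left]
    · apply Finset.sum_congr rfl
      intro l _
      rw [cati, cati, if_neg (by omega), if_neg (by omega), Nat.add_sub_cancel_left,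
        Nat.add_sub_cancel_left]

lemma sum_beta' (v : DV K) (x : ι → K) (H : ι → ℝ) (q : ℝ) (a z : ℕ → ι) (R : ℕ) :
    ∑ c ∈ range R, (∑ l ∈ range c, (v.o (x (z c) - x (z l)) : ℝ) +
      (∑ l ∈ range R, (v.o (x (z c) - x (a l)) : ℝ) + -(((R : ℝ) + R - 1) * H (z c)))) =
      Es v x H q (cati R a z) (R + R) - Es v x H q a R + R * ∑ l ∈ range R, H (a l) -
        q * ((R : ℝ) ^ 2 + R * ((R : ℝ) - 1) / 2) := by
  rw [Es_cat]
  have h1 : ∑ c ∈ range R, (∑ l ∈ range R, gi v x H q (z c) (a l) +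
      ∑ l ∈ range c, gi v x H q (z c) (z l)) =
      ∑ c ∈ range R, (∑ l ∈ range c, (v.o (x (z c) - x (z l)) : ℝ) +
        ∑ l ∈ range R, (v.o (x (z c) - x (a l)) : ℝ))
      - ∑ c ∈ range R, ∑ l ∈ range c, (H (z c) + H (z l)) + ∑ c ∈ range R, ∑ _l ∈ range c, q
      - (∑ c ∈ range R, ∑ l ∈ range R, (H (z c) + H (a l))) +
        ∑ _c ∈ range R, ∑ _l ∈ range R, q := by
    simp only [← Finset.sum_sub_distrib, ← Finset.sum_add_distrib]
    unfold gi
    apply Finset.sum_congr rfl
    intro c _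
    rw [← sub_eq_zero]
    simp only [Finset.sum_add_distrib, Finset.sum_sub_distrib]
    ring
  rw [h1, sum_pair (fun i => H (z i)), sum_cst]
  simp only [Finset.sum_add_distrib, Finset.sum_const, card_range, nsmul_eq_mul,
    Finset.sum_neg_distrib, ← Finset.mul_sum]
  ring

/-! ### valuations -/

lemma ge_leja {v : DV K} {x y : ι → K} {X : Finset ι} {U : ι → ℝ} {z : ℕ → ι} {r : ℕ}
    (hxy : ∀ i ∈ X, ∀ j ∈ X, i ≠ j → y i ≠ y j ∧ v.o (y i - y j) = v.o (x i - x j))
    (hz1 : ∀ c < r, z c ∈ X)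
    (hz : ∀ c < r, ∀ i ∈ X, (∀ l < c, i ≠ z l) →
      ∑ l ∈ range c, (v.o (x (z c) - x (z l)) : ℝ) + U (z c) ≤
        ∑ l ∈ range c, (v.o (x i - x (z l)) : ℝ) + U i)
    {c : ℕ} (hc : c < r) {i : ι} (hi : i ∈ X) :
    v.ge (∑ l ∈ range c, (v.o (x (z c) - x (z l)) : ℝ) + U (z c) - U i)
      (∏ l ∈ range c, (y i - y (z l))) := by
  by_cases h : ∃ l < c, i = z l
  · obtain ⟨l, hl, hxl⟩ := h
    left
    exact Finset.prod_eq_zero (mem_range.mpr hl) (by rw [hxl, sub_self])
  · push Not at h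
    right
    have h2 : ∀ l ∈ range c, y i - y (z l) ≠ 0 ∧ v.o (y i - y (z l)) = v.o (x i - x (z l)) := by
      intro l hl
      rw [mem_range] at hl
      have := hxy i hi (z l) (hz1 l (by omega)) (h l hl)
      exact ⟨sub_ne_zero.mpr this.1, this.2⟩
    rw [v.o_prod _ _ (fun l hl => (h2 l hl).1), Finset.sum_congr rfl (fun l hl => (h2 l hl).2)]
    push_cast
    have := hz c hc i hi h
    linarith

/-- the secant lines -/
lemma ge_line {v : DV K} {δ : ℝ} {xa xb xi ya yb yi : K} (hab : xa ≠ xb) (hai : xi ≠ xa)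
    (hbi : xi ≠ xb) (hδ : v.ge δ ((yi - ya) / (xi - xa) - (yi - yb) / (xi - xb))) :
    v.ge ((v.o (xi - xa) : ℝ) + v.o (xi - xb) - v.o (xa - xb) + δ)
      (yi - ((ya - yb) / (xa - xb) * xi + (xa * yb - xb * ya) / (xa - xb))) := by
  have hab' : xa - xb ≠ 0 := sub_ne_zero.mpr hab
  have hxa' : xi - xa ≠ 0 := sub_ne_zero.mpr hai
  have hxb' : xi - xb ≠ 0 := sub_ne_zero.mpr hbi
  have e : yi - ((ya - yb) / (xa - xb) * xi + (xa * yb - xb * ya) / (xa - xb)) =
      (xi - xa) * ((xi - xb) * ((xa - xb)⁻¹ *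
        ((yi - ya) / (xi - xa) - (yi - yb) / (xi - xb)))) := by
    field_simp
    ring
  rw [e]
  refine DV.ge_mono (DV.ge_mul (DV.ge_self (xi - xa)) (DV.ge_mul (DV.ge_self (xi - xb))
    (DV.ge_mul (DV.ge_inv hab' le_rfl) hδ))) (le_of_eq ?_)
  ring

/-! ### the two kinds of functions -/

/-- the line through `(xa, ya)` and `(xb, yb)` -/
noncomputable def linei (x y : ι → K) (a b : ι) : K[X] :=
  C ((y a - y b) / (x a - x b)) * X + C ((x a * y b - x b * y a) / (x a - x b))

/-- the second factor -/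
noncomputable def Mfi (x y : ι → K) (R : ℕ) (z z'' a b : ℕ → ι) (c e : ℕ) : K[X][X] :=
  if c < R ∧ R ≤ e then mP (fun l => linei x y (a l) (b l)) R * mP (fun l => C (y (z'' l))) (e - R)
  else mP (fun l => C (y (z l))) e

lemma Mfi_monic (x y : ι → K) (R : ℕ) (z z'' a b : ℕ → ι) (c e : ℕ) :
    (Mfi x y R z z'' a b c e).Monic := by
  unfold Mfi
  split_ifs
  · exact (mP_monic _ _).mul (mP_monic _ _)
  · exact mP_monic _ _

lemma Mfi_natDegree (x y : ι → K) (R : ℕ) (z z'' a b : ℕ → ι) (c e : ℕ) :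
    (Mfi x y R z z'' a b c e).natDegree = e := by
  unfold Mfi
  split_ifs with h
  · rw [(mP_monic _ _).natDegree_mul (mP_monic _ _), mP_natDegree, mP_natDegree]
    omega
  · exact mP_natDegree _ _

lemma linei_natDegree (x y : ι → K) (a b : ι) : (linei x y a b).natDegree ≤ 1 := by
  unfold linei
  exact Polynomial.natDegree_linear_le

lemma phi_Mfi_deg (x y : ι → K) (R : ℕ) (z z' z'' a b : ℕ → ι) (c e q : ℕ) (hc : c < R + R) :
    (phi R (fun l => x (z l)) (fun l => x (z' l)) c e *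
      (Mfi x y R z z'' a b c e).coeff q).natDegree < R + R := by
  refine lt_of_le_of_lt Polynomial.natDegree_mul_le ?_
  rw [phi_natDegree]
  by_cases h : c < R ∧ R ≤ e
  · have : Bd (Mfi x y R z z'' a b c e) (R * 1 + (e - R) * 0) := by
      unfold Mfi
      rw [if_pos h]
      exact (Bd_mP _ _ _ fun l _ => linei_natDegree x y _ _).mul
        (Bd_mP _ _ _ fun l _ => by simp)
    have := this q
    omega
  · have : Bd (Mfi x y R z z'' a b c e) (e * 0) := by
      unfold Mfi
      rw [if_neg h]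
      exact Bd_mP _ _ _ fun l _ => by simp
    have := this q
    omega

/-- **Lemma W**, for given pairs. -/
theorem lemmaW_aux (v : DV K) (X : Finset ι) (x y : ι → K) (hx : Set.InjOn x (X : Set ι))
    (hy : Set.InjOn y (X : Set ι))
    (hiso : ∀ i ∈ X, ∀ j ∈ X, i ≠ j → v.o (y i - y j) = v.o (x i - x j)) (δ : ℝ)
    (hδ : ∀ i ∈ X, ∀ j ∈ X, ∀ l ∈ X, i ≠ j → i ≠ l → j ≠ l →
      v.ge δ ((y i - y j) / (x i - x j) - (y i - y l) / (x i - x l)))
    (H : ι → ℝ) (q : ℝ) (R : ℕ)
    (hR : R + R ≤ X.card) (E : ℝ)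
    (hE : ∀ t : ℕ → ι, (∀ i < R + R, t i ∈ X) → (∀ i < R + R, ∀ j < i, t i ≠ t j) →
      E ≤ Es v x H q t (R + R))
    (a b : ℕ → ι) (haX : ∀ l < R, a l ∈ X) (hbX : ∀ l < R, b l ∈ X)
    (haa : ∀ l < R, ∀ j < l, a l ≠ a j) (hbb : ∀ l < R, ∀ j < l, b l ≠ b j)
    (hab : ∀ l < R, a l ≠ b l)
    (hPsi : Es v x H q a R + Es v x H q b R + R * ∑ l ∈ range R, gi v x H q (a l) (b l) ≤ E)
    (I : Fin (R + R) × Fin (R + R) → ι) (hI : ∀ j, I j ∈ X) :
    v.ge (2 * ((R : ℝ) + R - 1) * ∑ j, H (I j) - q * ((R : ℝ) + R - 1) * ((R : ℝ) + R) ^ 2 +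
        2 * ((R : ℝ) + R) * E + (R : ℝ) ^ 3 * δ)
      (Matrix.of fun j (pq : Fin (R + R) × Fin (R + R)) =>
        x (I j) ^ (pq.1 : ℕ) * (y (I j)) ^ (pq.2 : ℕ)).det := by
  classical
  rcases Nat.eq_zero_or_pos R with hR0 | hRpos
  · subst hR0
    have : IsEmpty (Fin (0 + 0)) := ⟨fun i => absurd i.2 (by omega)⟩
    rw [Matrix.det_isEmpty]
    simpa using (DV.ge_one (v := v))
  have hne : Nonempty ι := ⟨a 0⟩
  set n : ℝ := (R : ℝ) + R - 1 with hn
  -- Leja sequences
  obtain ⟨z, hz1, hz2, hz3⟩ := exists_leja (fun y y' => (v.o (x y - x y') : ℝ)) X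
    (fun y => -(n * H y)) (R + R) hR
  have hcardA : R ≤ (X \ (range R).image a).card := by
    have e1 : ((range R).image a).card ≤ R := Finset.card_image_le.trans (by simp)
    have e2 := Finset.le_card_sdiff ((range R).image a) X
    omega
  have hcardB : R ≤ (X \ (range R).image b).card := by
    have e1 : ((range R).image b).card ≤ R := Finset.card_image_le.trans (by simp)
    have e2 := Finset.le_card_sdiff ((range R).image b) X
    omega
  obtain ⟨z', hz1', hz2', hz3'⟩ := exists_leja (fun y y' => (v.o (x y - x y') : ℝ))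
    (X \ (range R).image a)
    (fun y => ∑ l ∈ range R, (v.o (x y - x (a l)) : ℝ) + -(n * H y)) R hcardA
  obtain ⟨z'', hz1'', hz2'', hz3''⟩ := exists_leja (fun y y' => (v.o (x y - x y') : ℝ))
    (X \ (range R).image b)
    (fun y => ∑ l ∈ range R, (v.o (x y - x (b l)) : ℝ) + -(n * H y)) R hcardB
  -- isometries
  have hxx : ∀ i ∈ X, ∀ j ∈ X, i ≠ j → x i ≠ x j ∧ v.o (x i - x j) = v.o (x i - x j) :=
    fun i hi j hj hij => ⟨fun h => hij (hx hi hj h), rfl⟩
  have hyy : ∀ i ∈ X, ∀ j ∈ X, i ≠ j → y i ≠ y j ∧ v.o (y i - y j) = v.o (x i - x j) :=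
    fun i hi j hj hij => ⟨fun h => hij (hy hi hj h), hiso i hi j hj hij⟩
  -- the constants
  set β : ℕ → ℝ := fun c => ∑ l ∈ range c, (v.o (x (z c) - x (z l)) : ℝ) + -(n * H (z c)) with hβ
  set β' : ℕ → ℝ := fun c => ∑ l ∈ range c, (v.o (x (z' c) - x (z' l)) : ℝ) +
    (∑ l ∈ range R, (v.o (x (z' c) - x (a l)) : ℝ) + -(n * H (z' c))) with hβ'
  set β'' : ℕ → ℝ := fun c => ∑ l ∈ range c, (v.o (x (z'' c) - x (z'' l)) : ℝ) +
    (∑ l ∈ range R, (v.o (x (z'' c) - x (b l)) : ℝ) + -(n * H (z'' c))) with hβ''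
  set κ : ℝ := -∑ l ∈ range R, (v.o (x (a l) - x (b l)) : ℝ) + R * δ with hκ
  -- change of basis
  rw [← det_basis (R + R) (fun ce => phi R (fun l => x (z l)) (fun l => x (z' l)) ce.1 ce.2)
    (fun ce => Mfi x y R z z'' a b ce.1 ce.2)
    (fun ce => phi_monic _ _ _ _ _) (fun ce => phi_natDegree _ _ _ _ _)
    (fun ce => Mfi_monic _ _ _ _ _ _ _ _ _) (fun ce => Mfi_natDegree _ _ _ _ _ _ _ _ _)
    (fun ce q => phi_Mfi_deg x y R z z' z'' a b ce.1 ce.2 q ce.1.2) (fun j => x (I j))
    (fun j => y (I j))]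
  -- entries
  have hentry : ∀ j (ce : Fin (R + R) × Fin (R + R)), v.ge (2 * n * H (I j) +
      (if (ce.1 : ℕ) < R ∧ R ≤ (ce.2 : ℕ) then β' ce.1 + β'' (ce.2 - R) + κ
        else β ce.1 + β ce.2))
      ((phi R (fun l => x (z l)) (fun l => x (z' l)) ce.1 ce.2).eval (x (I j)) *
        (Mfi x y R z z'' a b ce.1 ce.2).evalEval (x (I j)) (y (I j))) := by
    intro j ce
    obtain ⟨⟨c, hc⟩, ⟨e, he⟩⟩ := ce
    simp only
    set i := I j with hi
    have hiX : i ∈ X := hI j
    by_cases h : c < R ∧ R ≤ e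
    · rw [if_pos h]
      unfold phi Mfi
      rw [if_pos h, if_pos h, mp_eval, Polynomial.evalEval_mul, mP_eval, mP_eval]
      simp only [eval_C]
      -- i in A or B: zero
      by_cases hiA : i ∈ (range R).image a
      · left
        rw [mem_image] at hiA
        obtain ⟨l, hl, hly⟩ := hiA
        have : ∏ l ∈ range R, (y i - (linei x y (a l) (b l)).eval (x i)) = 0 := by
          apply Finset.prod_eq_zero hl
          have hne : x (a l) - x (b l) ≠ 0 :=
            sub_ne_zero.mpr (hxx _ (haX l (mem_range.mp hl)) _ (hbX l (mem_range.mp hl))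
              (hab l (mem_range.mp hl))).1
          unfold linei
          simp only [eval_add, eval_mul, eval_C, eval_X]
          rw [← hly]
          field_simp
          ring
        rw [this]
        ring
      by_cases hiB : i ∈ (range R).image b
      · left
        rw [mem_image] at hiB
        obtain ⟨l, hl, hly⟩ := hiB
        have : ∏ l ∈ range R, (y i - (linei x y (a l) (b l)).eval (x i)) = 0 := by
          apply Finset.prod_eq_zero hl
          have hne : x (a l) - x (b l) ≠ 0 :=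
            sub_ne_zero.mpr (hxx _ (haX l (mem_range.mp hl)) _ (hbX l (mem_range.mp hl))
              (hab l (mem_range.mp hl))).1
          unfold linei
          simp only [eval_add, eval_mul, eval_C, eval_X]
          rw [← hly]
          field_simp
          ring
        rw [this]
        ring
      have h1 := ge_leja (v := v) (x := x) (y := x)
        (U := fun y => ∑ l ∈ range R, (v.o (x y - x (a l)) : ℝ) + -(n * H y)) (z := z')
        (fun i hi j hj => hxx i (mem_sdiff.mp hi).1 j (mem_sdiff.mp hj).1) hz1' hz3' h.1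
        (mem_sdiff.mpr ⟨hiX, hiA⟩)
      have h2 := ge_leja (v := v) (x := x) (y := y)
        (U := fun y => ∑ l ∈ range R, (v.o (x y - x (b l)) : ℝ) + -(n * H y)) (z := z'')
        (fun i hi j hj => hyy i (mem_sdiff.mp hi).1 j (mem_sdiff.mp hj).1) hz1'' hz3''
        (show e - R < R by omega) (mem_sdiff.mpr ⟨hiX, hiB⟩)
      have h3 : v.ge (∑ l ∈ range R, ((v.o (x i - x (a l)) : ℝ) + v.o (x i - x (b l)) -
          v.o (x (a l) - x (b l)) + δ))
          (∏ l ∈ range R, (y i - (linei x y (a l) (b l)).eval (x i))) := by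
        apply ge_prod
        intro l hl
        have hl' := mem_range.mp hl
        have hia : i ≠ a l := fun h => hiA (mem_image.mpr ⟨l, hl, h.symm⟩)
        have hib : i ≠ b l := fun h => hiB (mem_image.mpr ⟨l, hl, h.symm⟩)
        have := ge_line (v := v) (hxx _ (haX l hl') _ (hbX l hl') (hab l hl')).1
          (hxx _ hiX _ (haX l hl') hia).1 (hxx _ hiX _ (hbX l hl') hib).1
          (hδ i hiX _ (haX l hl') _ (hbX l hl') hia hib (hab l hl'))
        unfold linei
        simp only [eval_add, eval_mul, eval_C, eval_X]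
        exact this
      refine DV.ge_mono (DV.ge_mul h1 (DV.ge_mul h3 h2)) (le_of_eq ?_)
      rw [hβ', hβ'', hκ]
      simp only [Finset.sum_add_distrib, Finset.sum_sub_distrib, Finset.sum_const, card_range,
        nsmul_eq_mul]
      ring
    · rw [if_neg h]
      unfold phi Mfi
      rw [if_neg h, if_neg h, mp_eval, mP_eval]
      simp only [eval_C]
      have h1 := ge_leja (v := v) (x := x) (y := x) (U := fun y => -(n * H y)) (z := z) hxx hz1
        hz3 hc hiX
      have h2 := ge_leja (v := v) (x := x) (y := y) (U := fun y => -(n * H y)) (z := z) hyy hz1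
        hz3 he hiX
      refine DV.ge_mono (DV.ge_mul h1 h2) (le_of_eq ?_)
      rw [hβ]
      ring
  have hdet := ge_det (Matrix.of fun j (ce : Fin (R + R) × Fin (R + R)) =>
    (phi R (fun l => x (z l)) (fun l => x (z' l)) ce.1 ce.2).eval (x (I j)) *
      (Mfi x y R z z'' a b ce.1 ce.2).evalEval (x (I j)) (y (I j)))
    (fun j => 2 * n * H (I j)) (fun ce => if (ce.1 : ℕ) < R ∧ R ≤ (ce.2 : ℕ) then
      β' ce.1 + β'' (ce.2 - R) + κ else β ce.1 + β ce.2) hentry
  refine DV.ge_mono hdet ?_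
  -- the total
  have hW : ∑ ce : Fin (R + R) × Fin (R + R), (if (ce.1 : ℕ) < R ∧ R ≤ (ce.2 : ℕ) then
      β' ce.1 + β'' (ce.2 - R) + κ else β ce.1 + β ce.2) =
      3 * R * ∑ c ∈ range (R + R), β c + R * ∑ c ∈ range R, β' c + R * ∑ c ∈ range R, β'' c +
        R ^ 2 * κ := by
    rw [← sum_w, Fintype.sum_prod_type,
      ← Fin.sum_univ_eq_sum_range (fun c => ∑ e ∈ range (R + R),
        (if c < R ∧ R ≤ e then β' c + β'' (e - R) + κ else β c + β e)) (R + R)]
    apply Finset.sum_congr rfl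
    intro c _
    rw [← Fin.sum_univ_eq_sum_range (fun e =>
        (if (c : ℕ) < R ∧ R ≤ e then β' c + β'' (e - R) + κ else β c + β e)) (R + R)]
  rw [hW]
  have hS0 := sum_beta v x H q z (R + R)
  have hS1 := sum_beta' v x H q a z' R
  have hS2 := sum_beta' v x H q b z'' R
  have hn' : (((R + R : ℕ) : ℝ) - 1) = n := by rw [hn]; push_cast; ring
  rw [hn'] at hS0
  rw [← hn] at hS1 hS2
  have hS0' : ∑ c ∈ range (R + R), β c = Es v x H q z (R + R) -
      q * (((R + R : ℕ) : ℝ) * n / 2) := hS0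
  have hS1' : ∑ c ∈ range R, β' c = Es v x H q (cati R a z') (R + R) - Es v x H q a R +
      R * ∑ l ∈ range R, H (a l) - q * ((R : ℝ) ^ 2 + R * ((R : ℝ) - 1) / 2) := hS1
  have hS2' : ∑ c ∈ range R, β'' c = Es v x H q (cati R b z'') (R + R) - Es v x H q b R +
      R * ∑ l ∈ range R, H (b l) - q * ((R : ℝ) ^ 2 + R * ((R : ℝ) - 1) / 2) := hS2
  have hG : ∑ l ∈ range R, (v.o (x (a l) - x (b l)) : ℝ) =
      ∑ l ∈ range R, gi v x H q (a l) (b l) +
      ∑ l ∈ range R, H (a l) + ∑ l ∈ range R, H (b l) - R * q := by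
    have : ∀ l ∈ range R, (v.o (x (a l) - x (b l)) : ℝ) =
        gi v x H q (a l) (b l) + H (a l) + H (b l) - q := by
      intro l _
      unfold gi
      ring
    rw [Finset.sum_congr rfl this]
    simp only [Finset.sum_add_distrib, Finset.sum_sub_distrib, Finset.sum_const, card_range,
      nsmul_eq_mul]
  have hE0 : E ≤ Es v x H q z (R + R) := hE z hz1 hz2
  have hE1 : E ≤ Es v x H q (cati R a z') (R + R) := by
    apply hE
    · intro i hi
      unfold cati
      split_ifs with h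
      · exact haX i h
      · exact (mem_sdiff.mp (hz1' (i - R) (by omega))).1
    · intro i hi j hj
      unfold cati
      by_cases h : i < R
      · rw [if_pos h, if_pos (by omega)]
        exact haa i h j hj
      · rw [if_neg h]
        by_cases h' : j < R
        · rw [if_pos h']
          intro hc
          exact (mem_sdiff.mp (hz1' (i - R) (by omega))).2
            (mem_image.mpr ⟨j, mem_range.mpr h', hc.symm⟩)
        · rw [if_neg h']
          exact hz2' (i - R) (by omega) (j - R) (by omega)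
  have hE2 : E ≤ Es v x H q (cati R b z'') (R + R) := by
    apply hE
    · intro i hi
      unfold cati
      split_ifs with h
      · exact hbX i h
      · exact (mem_sdiff.mp (hz1'' (i - R) (by omega))).1
    · intro i hi j hj
      unfold cati
      by_cases h : i < R
      · rw [if_pos h, if_pos (by omega)]
        exact hbb i h j hj
      · rw [if_neg h]
        by_cases h' : j < R
        · rw [if_pos h']
          intro hc
          exact (mem_sdiff.mp (hz1'' (i - R) (by omega))).2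
            (mem_image.mpr ⟨j, mem_range.mpr h', hc.symm⟩)
        · rw [if_neg h']
          exact hz2'' (i - R) (by omega) (j - R) (by omega)
  rw [hS0', hS1', hS2', hκ, hG, ← Finset.mul_sum]
  have hR0 : (0 : ℝ) ≤ R := Nat.cast_nonneg R
  push_cast
  rw [hn]
  nlinarith [mul_nonneg hR0 (sub_nonneg.mpr hE0), mul_nonneg hR0 (sub_nonneg.mpr hE1),
    mul_nonneg hR0 (sub_nonneg.mpr hE2), mul_nonneg hR0 (sub_nonneg.mpr hPsi)]

/-! ### the choice of the pairs -/

/-- extension of a family to a sequence -/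
noncomputable def exti [Nonempty ι] {m : ℕ} (f : Fin m → ι) (i : ℕ) : ι :=
  if h : i < m then f ⟨i, h⟩ else Classical.arbitrary ι

lemma exti_val [Nonempty ι] {m : ℕ} (f : Fin m → ι) (i : Fin m) : exti f i = f i := by
  rw [exti, dif_pos i.2]

/-- **Lemma W**, index version. -/
theorem lemmaW_seq (v : DV K) (X : Finset ι) (x y : ι → K) (hx : Set.InjOn x (X : Set ι))
    (hy : Set.InjOn y (X : Set ι))
    (hiso : ∀ i ∈ X, ∀ j ∈ X, i ≠ j → v.o (y i - y j) = v.o (x i - x j)) (δ : ℝ)
    (hδ : ∀ i ∈ X, ∀ j ∈ X, ∀ l ∈ X, i ≠ j → i ≠ l → j ≠ l →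
      v.ge δ ((y i - y j) / (x i - x j) - (y i - y l) / (x i - x l)))
    (H : ι → ℝ) (q : ℝ) (R : ℕ)
    (hR : R + R ≤ X.card) (e₀ : ℝ)
    (hE : ∀ t : ℕ → ι, (∀ i < R + R, t i ∈ X) → (∀ i < R + R, ∀ j < i, t i ≠ t j) →
      e₀ ≤ Es v x H q t (R + R))
    (I : Fin (R + R) × Fin (R + R) → ι) (hI : ∀ j, I j ∈ X) :
    v.ge (2 * ((R : ℝ) + R - 1) * ∑ j, H (I j) - q * ((R : ℝ) + R - 1) * ((R : ℝ) + R) ^ 2 +
        2 * ((R : ℝ) + R) * e₀ + (R : ℝ) ^ 3 * δ)
      (Matrix.of fun j (pq : Fin (R + R) × Fin (R + R)) =>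
        x (I j) ^ (pq.1 : ℕ) * (y (I j)) ^ (pq.2 : ℕ)).det := by
  classical
  rcases Nat.eq_zero_or_pos R with hR0 | hRpos
  · subst hR0
    have : IsEmpty (Fin (0 + 0)) := ⟨fun i => absurd i.2 (by omega)⟩
    rw [Matrix.det_isEmpty]
    simpa using (DV.ge_one (v := v))
  have hne0 : Nonempty ι := ⟨I (⟨0, by omega⟩, ⟨0, by omega⟩)⟩
  -- the minimal family
  set Fam : Finset (Fin (R + R) → ι) :=
    (Fintype.piFinset (fun _ : Fin (R + R) => X)).filter Function.Injective with hFam
  have hne : Fam.Nonempty := by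
    have h1 : Fintype.card (Fin (R + R)) ≤ Fintype.card X := by
      rw [Fintype.card_fin, Fintype.card_coe]; exact hR
    obtain ⟨f⟩ := Function.Embedding.nonempty_of_card_le h1
    refine ⟨fun i => (f i : ι), ?_⟩
    rw [hFam, mem_filter, Fintype.mem_piFinset]
    exact ⟨fun i => (f i).2, fun i j hij => f.injective (Subtype.ext hij)⟩
  obtain ⟨P, hP, hPmin⟩ := Finset.exists_min_image Fam (fun f => Es v x H q (exti f) (R + R)) hne
  rw [hFam, mem_filter, Fintype.mem_piFinset] at hP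
  obtain ⟨hPX, hPinj⟩ := hP
  set E : ℝ := Es v x H q (exti P) (R + R) with hEdef
  have hEmin : ∀ t : ℕ → ι, (∀ i < R + R, t i ∈ X) → (∀ i < R + R, ∀ j < i, t i ≠ t j) →
      E ≤ Es v x H q t (R + R) := by
    intro t h1 h2
    have h3 : (fun i : Fin (R + R) => t i) ∈ Fam := by
      rw [hFam, mem_filter, Fintype.mem_piFinset]
      refine ⟨fun i => h1 i i.2, ?_⟩
      intro i j hij
      simp only at hij
      rcases lt_trichotomy (i : ℕ) j with h | h | h
      · exact absurd hij.symm (h2 j j.2 i h)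
      · exact Fin.ext h
      · exact absurd hij (h2 i i.2 j h)
    refine (hPmin _ h3).trans (le_of_eq ?_)
    unfold Es
    apply Finset.sum_congr rfl
    intro i hi
    apply Finset.sum_congr rfl
    intro j hj
    rw [mem_range] at hi hj
    rw [exti, exti, dif_pos hi, dif_pos (by omega)]
  have he₀ : e₀ ≤ E := by
    apply hE
    · intro i hi
      rw [exti, dif_pos hi]
      exact hPX _
    · intro i hi j hj
      rw [exti, exti, dif_pos hi, dif_pos (by omega)]
      intro hc
      have := hPinj hc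
      rw [Fin.mk.injEq] at this
      omega
  -- averaging
  obtain ⟨σ, hσ⟩ := exists_perm_le
    (fun i j : Fin (R + R) => if (j : ℕ) < i then Wt R i j else 0)
    (fun i j => gi v x H q (P i) (P j)) (fun i => by simp) (by rw [Fintype.card_fin]; omega)
  set t : ℕ → ι := exti (P ∘ σ) with ht
  have e1 : (∑ i : Fin (R + R), ∑ j : Fin (R + R), (if (j : ℕ) < i then Wt R i j else 0) *
      gi v x H q (P (σ i)) (P (σ j))) =
      ∑ i ∈ range R, ∑ j ∈ range i, gi v x H q (t i) (t j) +
        ∑ c ∈ range R, ∑ l ∈ range c, gi v x H q (t (R + c)) (t (R + l)) +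
        R * ∑ c ∈ range R, gi v x H q (t (R + c)) (t c) := by
    rw [← sum_Wt R (fun i j => gi v x H q (t i) (t j)),
      ← sum_lt (R + R) (fun i j => Wt R i j * gi v x H q (t i) (t j))]
    apply Finset.sum_congr rfl
    intro i _
    apply Finset.sum_congr rfl
    intro j _
    rw [ht, exti_val, exti_val]
    split_ifs
    · rfl
    · ring
  have e2 : (∑ i : Fin (R + R), ∑ j : Fin (R + R), (if (j : ℕ) < i then Wt R i j else 0)) =
      R * (2 * R - 1) := by
    rw [sum_lt (R + R) (fun i j => Wt R i j)]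
    have := sum_Wt R (fun _ _ => 1)
    simp only [mul_one] at this
    rw [this, sum_cst, Finset.sum_const, card_range, nsmul_eq_mul]
    ring
  have e3 : (∑ i : Fin (R + R), ∑ j : Fin (R + R), (if i = j then 0 else gi v x H q (P i) (P j))) =
      2 * E := by
    rw [hEdef]
    unfold Es
    rw [← sum_sym (fun i j => gi v x H q (exti P i) (exti P j)) (fun i j => gi_comm _ _ _ _ _ _)
      (R + R), ← Fin.sum_univ_eq_sum_range (fun i => ∑ j ∈ range (R + R),
        if i = j then 0 else gi v x H q (exti P i) (exti P j)) (R + R)]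
    apply Finset.sum_congr rfl
    intro i _
    rw [← Fin.sum_univ_eq_sum_range (fun j =>
        if (i : ℕ) = j then 0 else gi v x H q (exti P i) (exti P j)) (R + R)]
    apply Finset.sum_congr rfl
    intro j _
    rw [exti_val, exti_val]
    simp only [Fin.ext_iff]
  rw [e1, e2, e3, Fintype.card_fin] at hσ
  have hR1 : (1 : ℝ) ≤ R := by exact_mod_cast hRpos
  have hPsi : ∑ i ∈ range R, ∑ j ∈ range i, gi v x H q (t i) (t j) +
        ∑ c ∈ range R, ∑ l ∈ range c, gi v x H q (t (R + c)) (t (R + l)) +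
        R * ∑ c ∈ range R, gi v x H q (t (R + c)) (t c) ≤ E := by
    have hpos : (0 : ℝ) < ((R + R : ℕ) : ℝ) * (((R + R : ℕ) : ℝ) - 1) := by
      push_cast
      nlinarith
    refine le_of_mul_le_mul_right (hσ.trans (le_of_eq ?_)) hpos
    push_cast
    ring
  have htX : ∀ i < R + R, t i ∈ X := by
    intro i hi
    rw [ht, exti, dif_pos hi]
    exact hPX _
  have htne : ∀ i < R + R, ∀ j < R + R, i ≠ j → t i ≠ t j := by
    intro i hi j hj hij hc
    rw [ht, exti, exti, dif_pos hi, dif_pos hj] at hc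
    have h1 := σ.injective (hPinj hc)
    rw [Fin.mk.injEq] at h1
    exact hij h1
  have key := lemmaW_aux v X x y hx hy hiso δ hδ H q R hR E hEmin t (fun l => t (R + l))
    (fun l hl => htX l (by omega)) (fun l hl => htX _ (by omega))
    (fun l hl j hj => htne l (by omega) j (by omega) (by omega))
    (fun l hl j hj => htne _ (by omega) _ (by omega) (by omega))
    (fun l hl => htne _ (by omega) _ (by omega) (by omega)) (by
      unfold Es
      refine le_trans (le_of_eq ?_) hPsi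
      congr 2
      apply Finset.sum_congr rfl
      intro l _
      exact gi_comm _ _ _ _ _ _) I hI
  refine DV.ge_mono key ?_
  have : 0 ≤ 2 * ((R : ℝ) + R) * (E - e₀) := by
    apply mul_nonneg
    · positivity
    · linarith
  nlinarith

lemma En_image [DecidableEq ι] (v : DV K) (x : ι → K) (H : ι → ℝ) (q : ℝ) (t : ℕ → ι) (m : ℕ)
    (ht : ∀ i < m, ∀ j < i, t i ≠ t j) :
    PT.En v x H q ((range m).image t) = 2 * Es v x H q t m := by
  have hinj : Set.InjOn t (range m : Set ℕ) := by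
    intro i hi j hj hij
    rw [Finset.coe_range, Set.mem_Iio] at hi hj
    rcases lt_trichotomy i j with h | h | h
    · exact absurd hij.symm (ht j hj i h)
    · exact h
    · exact absurd hij (ht i hi j h)
  unfold PT.En Es
  rw [← sum_sym (fun i j => gi v x H q (t i) (t j)) (fun i j => gi_comm _ _ _ _ _ _) m,
    Finset.sum_image (fun i hi j hj hij => hinj hi hj hij)]
  apply Finset.sum_congr rfl
  intro i hi
  rw [Finset.sum_filter, Finset.sum_image (fun i hi j hj hij => hinj hi hj hij)]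
  apply Finset.sum_congr rfl
  intro j hj
  by_cases h : i = j
  · subst h
    simp
  · have h' : t j ≠ t i := fun hc => h (hinj hi hj hc.symm)
    rw [if_pos h', if_neg h]
    rfl

end Pool.Agent.Helper55.LWI

namespace Pool.Agent.Helper55.LWI

open Pool.Agent.Helper33 Pool.Agent.Helper33.PT

/-- T-LW: LEMMA W (note 420) -/
theorem lemmaW {E ι : Type} [Field E] [DecidableEq ι] (v : DV E) (R : ℕ) (hR : 1 ≤ R) (X : Finset ι)
    (hX : 3 * R ≤ X.card) (x y : ι → E) (hx : Set.InjOn x (X : Set ι)) (hy : Set.InjOn y (X : Set ι))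
    (H : ι → ℝ) (q e : ℝ) (δ : ℕ)
    (hiso : ∀ i ∈ X, ∀ j ∈ X, i ≠ j → v.o (y i - y j) = v.o (x i - x j))
    (hδ : ∀ i ∈ X, ∀ j ∈ X, ∀ l ∈ X, i ≠ j → i ≠ l → j ≠ l →
      v.ge δ ((y i - y j) / (x i - x j) - (y i - y l) / (x i - x l)))
    (he : ∀ S ⊆ X, S.card = 2 * R → 2 * e ≤ En v x H q S)
    (i : Fin (2 * R) × Fin (2 * R) → ι) (hi : ∀ a, i a ∈ X)
    (hdet : (PM (2 * R) (x ∘ i) (y ∘ i)).det ≠ 0) :
    2 * (2 * R) * e + R ^ 3 * δ ≤ (v.o (PM (2 * R) (x ∘ i) (y ∘ i)).det : ℝ) -
      2 * (2 * R - 1) * ∑ a, H (i a) + q * (2 * R - 1) * (2 * R) ^ 2 := by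
  have h2 : 2 * R = R + R := two_mul R
  generalize 2 * R = m at h2 he i hi hdet ⊢
  subst h2
  have key := Pool.Agent.Helper55.LWI.lemmaW_seq v X x y hx hy hiso (δ : ℝ) hδ H q R (by omega) e
    (by
      intro t ht1 ht2
      have hcard : ((range (R + R)).image t).card = R + R := by
        rw [Finset.card_image_of_injOn, card_range]
        intro a ha b hb hab
        rw [Finset.coe_range, Set.mem_Iio] at ha hb
        rcases lt_trichotomy a b with h | h | h
        · exact absurd hab.symm (ht2 b hb a h)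
        · exact h
        · exact absurd hab (ht2 a ha b h)
      have hsub : (range (R + R)).image t ⊆ X := by
        intro a ha
        rw [mem_image] at ha
        obtain ⟨l, hl, rfl⟩ := ha
        exact ht1 l (mem_range.mp hl)
      have := he _ hsub hcard
      rw [Pool.Agent.Helper55.LWI.En_image v x H q t (R + R) ht2] at this
      linarith) i hi
  have h3 := DV.ge_le key hdet
  have h4 : (v.o (PM (R + R) (x ∘ i) (y ∘ i)).det : ℝ) = (v.o (Matrix.of fun j (pq : Fin (R + R) × Fin (R + R)) =>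
        x (i j) ^ (pq.1 : ℕ) * (y (i j)) ^ (pq.2 : ℕ)).det : ℝ) := rfl
  rw [h4]
  have h5 : (R : ℝ) + R = 2 * R := by ring
  rw [h5] at h3
  linarith

end Pool.Agent.Helper55.LWI
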